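import Pool.Agent.Lib.MP_7e9d3d_co.NoBad

/-! Tilings built from three chains. -/

namespace Pool.Agent.Lib.MP_7e9d3d_co

open Finset

noncomputable def free (N : ℤ) (P : Site) (S : Fin 3 → Finset Tile) : Finset Site :=
  (tri N).filter fun s => s ≠ P ∧ ∀ z, ∀ τ ∈ S z, τ (z + 1) ≠ s

noncomputable def build (N : ℤ) (P : Site) (S : Fin 3 → Finset Tile) : Finset Tile :=
  (free N P S).image stone ∪ univ.biUnion S

lemma mem_build {N : ℤ} {P : Site} {S : Fin 3 → Finset Tile} {τ : Tile} :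
    τ ∈ build N P S ↔ (∃ s, (s ∈ tri N ∧ s ≠ P ∧ ∀ z, ∀ τ ∈ S z, τ (z + 1) ≠ s) ∧ τ = stone s) ∨
      ∃ z, τ ∈ S z := by
  simp only [build, free, mem_union, mem_image, mem_filter, mem_biUnion, mem_univ, true_and,
    eq_comm (b := τ)]

lemma chD_chains {N : ℤ} {z : Fin 3} {P : Site} (hP : P ∈ tri N) {d : Bool} {S : Finset Tile}
    (h : S ∈ chD N z P d) : S ∈ chains N z ((lev z P - 1).toNat + 1) P := by
  obtain ⟨-, S', h1, h2⟩ := mem_chD.mp h
  exact mem_chains_succ.mpr ⟨hP, d, S', h1, h2⟩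

lemma chD_strict {N : ℤ} (hN : 0 ≤ N) {z : Fin 3} {P : Site} {d : Bool} {S : Finset Tile}
    (h : S ∈ chD N z P d) {τ : Tile} (hτ : τ ∈ S) :
    (d = false → P z < τ (z + 1) z) ∧ (d = true → τ (z + 1) (z + 2) < P (z + 2)) := by
  obtain ⟨-, S', h1, rfl⟩ := mem_chD.mp h
  have a := step_f z
  have b := step_t z
  rcases mem_insert.mp hτ with rfl | hτ
  · constructor <;> rintro rfl <;> simp only [bone_succ, Pi.sub_apply] <;> omega
  · obtain ⟨Q, e, rfl, -, -, -, h5, h6⟩ := (chainProp hN h1).2.shape τ hτ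
    constructor <;> rintro rfl <;> simp only [bone_succ, Pi.sub_apply] at * <;> omega

lemma add_one_add_two (z : Fin 3) : z + 1 + 2 = z := by fin_cases z <;> rfl
lemma add_two_add_one (z : Fin 3) : z + 2 + 1 = z := by fin_cases z <;> rfl
lemma add_one_add_one (z : Fin 3) : z + 1 + 1 = z + 2 := by fin_cases z <;> rfl
lemma add_two_add_two (z : Fin 3) : z + 2 + 2 = z + 1 := by fin_cases z <;> rfl
lemma ne_cases {z y : Fin 3} (h : z ≠ y) : y = z + 1 ∨ z = y + 1 := by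
  revert h; fin_cases z <;> fin_cases y <;> decide

lemma chD_disj {N : ℤ} (hN : 0 ≤ N) {P : Site} (hP : P ∈ tri N) {d : Bool}
    {S : Fin 3 → Finset Tile} (h : ∀ z, S z ∈ chD N z P d) {z y : Fin 3} (hne : z ≠ y)
    {τ σ : Tile} (hτ : τ ∈ S z) (hσ : σ ∈ S y) : τ (z + 1) ≠ σ (y + 1) := by
  have key : ∀ (z : Fin 3) (τ σ : Tile), τ ∈ S z → σ ∈ S (z + 1) → τ (z + 1) ≠ σ (z + 1 + 1) := by
    intro z τ σ hτ hσ e
    have s1 := chD_strict hN (h z) hτ
    have s2 := chD_strict hN (h (z + 1)) hσ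
    obtain ⟨Q, _, rfl, -, -, -, h5, -⟩ := (chainProp hN (chD_chains hP (h z))).2.shape τ hτ
    obtain ⟨Q', _, rfl, -, -, -, -, h6⟩ :=
      (chainProp hN (chD_chains hP (h (z + 1)))).2.shape σ hσ
    simp only [bone_succ, add_one_add_two] at *
    subst e
    cases d
    · have := s1.1 rfl; omega
    · have := s2.2 rfl; omega
  rcases ne_cases hne with rfl | rfl
  · exact key z τ σ hτ hσ
  · exact (key y σ τ hσ hτ).symm

theorem build_tiling {N : ℤ} (hN : 0 ≤ N) {P : Site} (hP : P ∈ tri N) {d : Bool}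
    {S : Fin 3 → Finset Tile} (h : ∀ z, S z ∈ chD N z P d) : ATiling N (build N P S) := by
  have hc : ∀ z, ChainProp N z P (S z) := fun z => (chainProp hN (chD_chains hP (h z))).2
  have ownP : ∀ z, ∀ τ ∈ S z, τ (z + 1) ≠ P := by
    intro z τ hτ e
    obtain ⟨Q, _, rfl, -, -, h4, -⟩ := (hc z).shape τ hτ
    simp only [bone_succ] at e
    rw [e] at h4; omega
  have own : ∀ y z, y ≠ z → ∀ τ ∈ S y, τ z = τ (y + 1) := by
    intro y z hne τ hτ
    obtain ⟨Q, _, rfl, -⟩ := (hc y).shape τ hτ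
    rw [bone_ne hne.symm, bone_succ]
  have tgt : ∀ z, ∀ τ ∈ S z, τ z = P ∨ ∃ σ ∈ S z, σ (z + 1) = τ z :=
    fun z τ hτ => ((hc z).link (τ z)).mpr (Or.inr ⟨τ, hτ, rfl⟩)
  refine ⟨?_, ?_, ?_, ?_⟩
  · intro τ hτ
    refine Or.inl (good_iff.mp ?_)
    rcases mem_build.mp hτ with ⟨s, -, rfl⟩ | ⟨z, hz⟩
    · exact Or.inl ⟨s, rfl⟩
    · obtain ⟨Q, e, rfl, -⟩ := (hc z).shape τ hz
      exact Or.inr ⟨z, Q, e, rfl⟩
  · intro τ hτ z
    have hk := ((hc z).link (corner N z)).mpr (Or.inl rfl)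
    rcases mem_build.mp hτ with ⟨s, ⟨h1, h2, h3⟩, rfl⟩ | ⟨y, hy⟩
    · refine ⟨h1, ?_⟩
      rintro (e : s = corner N z)
      rcases hk with hk | ⟨σ, hσ, hk⟩
      · exact h2 (e.trans hk)
      · exact h3 z σ hσ (hk.trans e.symm)
    · by_cases hyz : y = z
      · subst hyz
        obtain ⟨Q, e, rfl, h2, h3, -⟩ := (hc y).shape τ hy
        rw [bone_self]
        refine ⟨h3, fun e' => ?_⟩
        have := lev_add y Q e
        have := lev_nonneg y h2
        rw [e', lev_corner] at *; omega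
      · rw [own y z hyz τ hy]
        constructor
        · obtain ⟨Q, e, rfl, h2, -⟩ := (hc y).shape τ hy
          rwa [bone_succ]
        · intro e
          rcases hk with hk | ⟨σ, hσ, hk⟩
          · exact ownP y τ hy (e.trans hk)
          · exact chD_disj hN hP h hyz hy hσ (e.trans hk.symm)
  · intro z s hs hne
    by_cases hf : s ≠ P ∧ ∀ z, ∀ τ ∈ S z, τ (z + 1) ≠ s
    · exact ⟨stone s, mem_build.mpr (Or.inl ⟨s, ⟨hs, hf⟩, rfl⟩), rfl⟩
    by_cases h1 : s = P ∨ ∃ τ ∈ S z, τ (z + 1) = s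
    · rcases ((hc z).link s).mp h1 with h2 | ⟨τ, hτ, e⟩
      · exact absurd h2 hne
      · exact ⟨τ, mem_build.mpr (Or.inr ⟨z, hτ⟩), e⟩
    · push Not at hf h1
      obtain ⟨y, τ, hτ, e⟩ := hf h1.1
      have hyz : y ≠ z := by
        rintro rfl
        exact h1.2 τ hτ e
      exact ⟨τ, mem_build.mpr (Or.inr ⟨y, hτ⟩), (own y z hyz τ hτ).trans e⟩
  · have aux : ∀ s, (s ≠ P ∧ ∀ z, ∀ τ ∈ S z, τ (z + 1) ≠ s) → ∀ y z, ∀ τ ∈ S y, τ z ≠ s := by
      intro s hs y z τ hτ e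
      by_cases hyz : y = z
      · subst hyz
        rcases tgt y τ hτ with h1 | ⟨σ, hσ, h1⟩
        · exact hs.1 (e.symm.trans h1)
        · exact hs.2 y σ hσ (h1.trans e)
      · exact hs.2 y τ hτ ((own y z hyz τ hτ).symm.trans e)
    have aux2 : ∀ y z, y ≠ z → ∀ τ ∈ S y, ∀ σ ∈ S z, τ z ≠ σ z := by
      intro y z hyz τ hτ σ hσ e
      rw [own y z hyz τ hτ] at e
      rcases tgt z σ hσ with h1 | ⟨ρ, hρ, h1⟩
      · exact ownP y τ hτ (e.trans h1)
      · exact chD_disj hN hP h hyz hτ hρ (e.trans h1.symm)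
    intro τ hτ σ hσ z e
    rcases mem_build.mp hτ with ⟨s, ⟨-, h2⟩, rfl⟩ | ⟨y, hy⟩ <;>
      rcases mem_build.mp hσ with ⟨s', ⟨-, h2'⟩, rfl⟩ | ⟨x, hx⟩
    · exact congrArg stone e
    · exact absurd e.symm (aux s h2 x z σ hx)
    · exact absurd e (aux s' h2' y z τ hy)
    · by_cases hyx : y = x
      · subst hyx
        apply (hc y).inj τ hy σ hx
        by_cases hyz : y = z
        · subst hyz
          obtain ⟨Q, a, rfl, -⟩ := (hc y).shape τ hy
          obtain ⟨Q', a', rfl, -⟩ := (hc y).shape σ hx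
          simp only [bone_self, bone_succ] at e ⊢
          have h1 := lev_add y Q a
          have h2 := lev_add y Q' a'
          rw [e] at h1; omega
        · rw [← own y z hyz τ hy, ← own y z hyz σ hx, e]
      · exfalso
        by_cases hyz : y = z
        · subst hyz
          exact aux2 x y (Ne.symm hyx) σ hx τ hy e.symm
        · by_cases hxz : x = z
          · subst hxz
            exact aux2 y x hyx τ hy σ hx e
          · rw [own y z hyz τ hy, own x z hxz σ hx] at e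
            exact chD_disj hN hP h hyx hy hx e

theorem build_inj {N : ℤ} (hN : 0 ≤ N) {P P' : Site} (hP : P ∈ tri N) (hP' : P' ∈ tri N)
    {d d' : Bool} {S S' : Fin 3 → Finset Tile} (h : ∀ z, S z ∈ chD N z P d)
    (h' : ∀ z, S' z ∈ chD N z P' d') (e : build N P S = build N P' S') :
    P = P' ∧ d = d' ∧ S = S' := by
  have hc : ∀ z, ChainProp N z P (S z) := fun z => (chainProp hN (chD_chains hP (h z))).2
  have hc' : ∀ z, ChainProp N z P' (S' z) := fun z => (chainProp hN (chD_chains hP' (h' z))).2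
  have sub : ∀ {P P' : Site} {S S' : Fin 3 → Finset Tile}, (∀ z, ChainProp N z P (S z)) →
      (∀ z, ChainProp N z P' (S' z)) → build N P S = build N P' S' → ∀ z, S z ⊆ S' z := by
    intro P P' S S' hc hc' e z τ hτ
    have : τ ∈ build N P' S' := e ▸ mem_build.mpr (Or.inr ⟨z, hτ⟩)
    obtain ⟨Q, a, rfl, -⟩ := (hc z).shape τ hτ
    rcases mem_build.mp this with ⟨s, -, h1⟩ | ⟨y, hy⟩
    · exact absurd h1.symm (stone_ne_bone _ _ _ _)
    · obtain ⟨Q', a', h1, -⟩ := (hc' y).shape _ hy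
      obtain rfl := bone_col h1
      exact hy
  have eS : S = S' := funext fun z => Subset.antisymm (sub hc hc' e z) (sub hc' hc e.symm z)
  subst eS
  have eP : P = P' := by
    by_contra hne
    have h1 : stone P' ∈ build N P S := by
      refine mem_build.mpr (Or.inl ⟨P', ⟨hP', Ne.symm hne, ?_⟩, rfl⟩)
      intro z τ hτ e'
      obtain ⟨Q, _, rfl, -, -, h4, -⟩ := (hc' z).shape τ hτ
      simp only [bone_succ] at e'
      rw [e'] at h4; omega
    rw [e] at h1
    rcases mem_build.mp h1 with ⟨s, ⟨-, h2, -⟩, h3⟩ | ⟨y, hy⟩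
    · exact h2 (congrFun h3 0).symm
    · obtain ⟨Q', a', h1, -⟩ := (hc' y).shape _ hy
      exact stone_ne_bone _ _ _ _ h1
  subst eP
  refine ⟨rfl, ?_, rfl⟩
  obtain ⟨-, A, -, eA⟩ := mem_chD.mp (h 0)
  obtain ⟨-, A', -, eA'⟩ := mem_chD.mp (h' 0)
  have := (hc 0).inj (bone 0 (P - step 0 d) d) (eA ▸ mem_insert_self _ _)
    (bone 0 (P - step 0 d') d') (eA' ▸ mem_insert_self _ _)
    (by rw [bone_succ, bone_succ, lev_sub, lev_sub])
  exact (bone_inj this).2

end Pool.Agent.Lib.MP_7e9d3d_co
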