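import Pool.Agent.Lib.MP_7e9d3d_co.Sum

/-! Chains of bones starting at a corner of the triangle of sites. -/

namespace Pool.Agent.Lib.MP_7e9d3d_co

open Finset

abbrev Site := Fin 3 → ℤ
abbrev Tile := Fin 3 → Site

/-- The unit step `e (i+1) - e i`. -/
def p (i : Fin 3) : Site := fun j => if j = i + 1 then 1 else if j = i then -1 else 0

def step (z : Fin 3) (d : Bool) : Site := if d then p (z + 1) else p z

def corner (N : ℤ) (z : Fin 3) : Site := fun j => if j = z then N else 0

def lev (z : Fin 3) (s : Site) : ℤ := s (z + 1) + 2 * s (z + 2)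

def stone (s : Site) : Tile := fun _ => s

def bone (z : Fin 3) (s : Site) (d : Bool) : Tile := fun y => if y = z then s + step z d else s

lemma site_ext {s t : Site} : s = t ↔ s 0 = t 0 ∧ s 1 = t 1 ∧ s 2 = t 2 := by
  rw [funext_iff]
  simp only [Fin.forall_fin_succ, IsEmpty.forall_iff, and_true, Fin.succ_zero_eq_one,
    Fin.succ_one_eq_two]

lemma mem_tri' (z : Fin 3) {N : ℤ} {s : Site} :
    s ∈ tri N ↔ 0 ≤ s z ∧ 0 ≤ s (z + 1) ∧ 0 ≤ s (z + 2) ∧ s z + s (z + 1) + s (z + 2) = N := by
  rw [mem_tri]; fin_cases z <;> simp <;> omega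

lemma site_ext' (z : Fin 3) {s t : Site} :
    s = t ↔ s z = t z ∧ s (z + 1) = t (z + 1) ∧ s (z + 2) = t (z + 2) := by
  rw [site_ext]; fin_cases z <;> simp <;> tauto

lemma step_f (z : Fin 3) :
    step z false z = -1 ∧ step z false (z + 1) = 1 ∧ step z false (z + 2) = 0 := by
  fin_cases z <;> simp [step, p]

lemma step_t (z : Fin 3) :
    step z true z = 0 ∧ step z true (z + 1) = -1 ∧ step z true (z + 2) = 1 := by
  fin_cases z <;> simp [step, p]

lemma corner_v (N : ℤ) (z : Fin 3) :
    corner N z z = N ∧ corner N z (z + 1) = 0 ∧ corner N z (z + 2) = 0 := by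
  fin_cases z <;> simp [corner]

lemma lev_add (z : Fin 3) (s : Site) (d : Bool) : lev z (s + step z d) = lev z s + 1 := by
  have h1 := step_f z
  have h2 := step_t z
  cases d <;> simp only [lev, Pi.add_apply] <;> omega

lemma lev_sub (z : Fin 3) (s : Site) (d : Bool) : lev z (s - step z d) = lev z s - 1 := by
  have := lev_add z (s - step z d) d
  rw [sub_add_cancel] at this; omega

lemma lev_corner (N : ℤ) (z : Fin 3) : lev z (corner N z) = 0 := by
  have := corner_v N z
  simp only [lev]; omega

lemma lev_nonneg (z : Fin 3) {N : ℤ} {s : Site} (h : s ∈ tri N) : 0 ≤ lev z s := by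
  rw [mem_tri' z] at h; simp only [lev]; omega

lemma eq_corner {z : Fin 3} {N : ℤ} {s : Site} (h : s ∈ tri N) (h0 : lev z s = 0) :
    s = corner N z := by
  have := corner_v N z
  rw [mem_tri' z] at h; rw [site_ext' z]; simp only [lev] at h0; omega

lemma corner_mem {N : ℤ} (hN : 0 ≤ N) (z : Fin 3) : corner N z ∈ tri N := by
  have := corner_v N z
  rw [mem_tri' z]; omega

@[simp] lemma bone_self (z : Fin 3) (s : Site) (d : Bool) : bone z s d z = s + step z d := by
  simp [bone]

lemma bone_ne {z y : Fin 3} (h : y ≠ z) (s : Site) (d : Bool) : bone z s d y = s := by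
  simp [bone, h]

lemma succ_ne (z : Fin 3) : z + 1 ≠ z := by fin_cases z <;> decide
lemma succ2_ne (z : Fin 3) : z + 2 ≠ z := by fin_cases z <;> decide

@[simp] lemma bone_succ (z : Fin 3) (s : Site) (d : Bool) : bone z s d (z + 1) = s :=
  bone_ne (succ_ne z) s d

lemma add_step_ne (z : Fin 3) (s : Site) (d : Bool) : s + step z d ≠ s := by
  intro h
  have := lev_add z s d
  rw [h] at this; omega

lemma bone_inj {z : Fin 3} {s s' : Site} {d d' : Bool} (h : bone z s d = bone z s' d') :
    s = s' ∧ d = d' := by
  have h1 := congrFun h (z + 1)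
  have h2 := congrFun h z
  simp only [bone_succ, bone_self] at h1 h2
  subst h1
  refine ⟨rfl, ?_⟩
  have h3 := congrFun (add_left_cancel h2) z
  have a := step_f z
  have b := step_t z
  cases d <;> cases d' <;> first | rfl | omega

lemma third (z y : Fin 3) : ∃ x, x ≠ z ∧ x ≠ y := by
  fin_cases z <;> fin_cases y <;> decide

lemma bone_col {z y : Fin 3} {s s' : Site} {d d' : Bool} (h : bone z s d = bone y s' d') :
    z = y := by
  by_contra hne
  obtain ⟨x, hx, hy⟩ := third z y
  have h1 := congrFun h x
  have h2 := congrFun h z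
  rw [bone_ne hx, bone_ne hy] at h1
  rw [bone_self, bone_ne hne, ← h1] at h2
  exact add_step_ne _ _ _ h2

lemma stone_ne_bone (s : Site) (z : Fin 3) (s' : Site) (d : Bool) : stone s ≠ bone z s' d := by
  intro h
  have h1 := congrFun h (z + 1)
  have h2 := congrFun h z
  simp only [stone, bone_succ, bone_self] at h1 h2
  rw [← h1] at h2
  exact add_step_ne _ _ _ h2.symm

/-- Chains of bones of colour `z` from the corner `z` to the site `P`, of length `l`. -/
noncomputable def chains (N : ℤ) (z : Fin 3) : ℕ → Site → Finset (Finset Tile)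
  | 0, P => if P = corner N z then {∅} else ∅
  | l + 1, P => if P ∈ tri N then
      (chains N z l (P - step z false)).image (insert (bone z (P - step z false) false)) ∪
      (chains N z l (P - step z true)).image (insert (bone z (P - step z true) true)) else ∅

lemma mem_chains_zero {N : ℤ} {z : Fin 3} {P : Site} {S : Finset Tile} :
    S ∈ chains N z 0 P ↔ P = corner N z ∧ S = ∅ := by
  simp only [chains]; split_ifs with h <;> simp [h]

lemma mem_chains_succ {N : ℤ} {z : Fin 3} {l : ℕ} {P : Site} {S : Finset Tile} :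
    S ∈ chains N z (l + 1) P ↔ P ∈ tri N ∧ ∃ d, ∃ S' ∈ chains N z l (P - step z d),
      S = insert (bone z (P - step z d) d) S' := by
  simp only [chains]
  split_ifs with h
  · simp only [mem_union, mem_image, h, true_and, Bool.exists_bool, eq_comm]
  · simp [h]

/-- Everything we need to know about one chain. -/
structure ChainProp (N : ℤ) (z : Fin 3) (P : Site) (S : Finset Tile) : Prop where
  mem : P ∈ tri N
  shape : ∀ τ ∈ S, ∃ Q d, τ = bone z Q d ∧ Q ∈ tri N ∧ Q + step z d ∈ tri N ∧
    lev z Q < lev z P ∧ P z ≤ Q z ∧ Q (z + 2) ≤ P (z + 2)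
  inj : ∀ τ ∈ S, ∀ τ' ∈ S, lev z (τ (z + 1)) = lev z (τ' (z + 1)) → τ = τ'
  link : ∀ s, (s = P ∨ ∃ τ ∈ S, τ (z + 1) = s) ↔ (s = corner N z ∨ ∃ τ ∈ S, τ z = s)
  all : ∀ j, 0 ≤ j → j < lev z P → ∃ τ ∈ S, lev z (τ (z + 1)) = j

lemma chainProp {N : ℤ} (hN : 0 ≤ N) {z : Fin 3} :
    ∀ {l : ℕ} {P : Site} {S : Finset Tile}, S ∈ chains N z l P →
      lev z P = l ∧ ChainProp N z P S := by
  intro l
  induction l with
  | zero =>
    intro P S h
    obtain ⟨rfl, rfl⟩ := mem_chains_zero.mp h
    refine ⟨by simp [lev_corner], corner_mem hN z, by simp, by simp, by simp, ?_⟩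
    intro j h0 h1
    rw [lev_corner] at h1; omega
  | succ l ih =>
    intro P S h
    obtain ⟨hP, d, S', hS', rfl⟩ := mem_chains_succ.mp h
    obtain ⟨hl, hc⟩ := ih hS'
    have hls := lev_sub z P d
    have a := step_f z
    have b := step_t z
    have c1 : P z ≤ (P - step z d) z := by cases d <;> simp only [Pi.sub_apply] <;> omega
    have c2 : (P - step z d) (z + 2) ≤ P (z + 2) := by
      cases d <;> simp only [Pi.sub_apply] <;> omega
    refine ⟨by push_cast; omega, hP, ?_, ?_, ?_, ?_⟩
    · intro τ hτ
      rcases mem_insert.mp hτ with rfl | hτ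
      · exact ⟨_, d, rfl, hc.mem, by simpa using hP, by omega, c1, c2⟩
      · obtain ⟨Q, e, h1, h2, h3, h4, h5, h6⟩ := hc.shape τ hτ
        exact ⟨Q, e, h1, h2, h3, by omega, by omega, by omega⟩
    · intro τ hτ τ' hτ' he
      rcases mem_insert.mp hτ with rfl | hτ <;> rcases mem_insert.mp hτ' with rfl | hτ'
      · rfl
      · obtain ⟨Q, e, rfl, h2, h3, h4, h5, h6⟩ := hc.shape τ' hτ'
        simp only [bone_succ] at he; omega
      · obtain ⟨Q, e, rfl, h2, h3, h4, h5, h6⟩ := hc.shape τ hτ
        simp only [bone_succ] at he; omega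
      · exact hc.inj τ hτ τ' hτ' he
    · intro s
      have := hc.link s
      simp only [mem_insert, exists_eq_or_imp, bone_succ, bone_self, sub_add_cancel]
      rw [eq_comm (a := P - step z d), this, eq_comm (a := P)]
      exact or_left_comm
    · intro j h0 h1
      by_cases hj : j = lev z (P - step z d)
      · exact ⟨_, mem_insert_self _ _, by simp [hj]⟩
      · obtain ⟨τ, hτ, e⟩ := hc.all j h0 (by omega)
        exact ⟨τ, mem_insert_of_mem hτ, e⟩

/-- Chains with prescribed last step. -/
noncomputable def chD (N : ℤ) (z : Fin 3) (P : Site) (d : Bool) : Finset (Finset Tile) :=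
  if 1 ≤ lev z P then (chains N z (lev z P - 1).toNat (P - step z d)).image
    (insert (bone z (P - step z d) d)) else ∅

lemma mem_chD {N : ℤ} {z : Fin 3} {P : Site} {d : Bool} {S : Finset Tile} :
    S ∈ chD N z P d ↔ 1 ≤ lev z P ∧ ∃ S' ∈ chains N z (lev z P - 1).toNat (P - step z d),
      S = insert (bone z (P - step z d) d) S' := by
  simp only [chD]
  split_ifs with h
  · simp only [mem_image, h, true_and, eq_comm]
  · simp [h]

lemma insert_injOn {N : ℤ} (hN : 0 ≤ N) (z : Fin 3) (l : ℕ) (Q : Site) (d : Bool) :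
    Set.InjOn (insert (bone z Q d)) (chains N z l Q : Set (Finset Tile)) := by
  have key : ∀ S ∈ chains N z l Q, bone z Q d ∉ S := by
    intro S hS hm
    obtain ⟨Q', e, h1, -, -, h4, -⟩ := (chainProp hN hS).2.shape _ hm
    rw [(bone_inj h1).1] at h4; omega
  intro S hS S' hS' h
  rw [← erase_insert (key S hS), ← erase_insert (key S' hS'), h]

lemma card_chains {N : ℤ} (hN : 0 ≤ N) (z : Fin 3) : ∀ (l : ℕ) (P : Site),
    ((chains N z l P).card : ℤ) =
      if P ∈ tri N ∧ lev z P = l then B l (P (z + 2)) - B l (P (z + 2) - 1) else 0 := by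
  intro l
  induction l with
  | zero =>
    intro P
    simp only [chains]
    by_cases h : P = corner N z
    · rw [if_pos h, if_pos (by rw [h]; exact ⟨corner_mem hN z, by simp [lev_corner]⟩), h,
        (corner_v N z).2.2, B_zero, B_neg (by omega)]
      simp
    · rw [if_neg h, if_neg (fun hh => h (eq_corner hh.1 (by simpa using hh.2)))]; simp
  | succ l ih =>
    intro P
    simp only [chains]
    by_cases hP : P ∈ tri N
    swap
    · simp [hP]
    rw [if_pos hP, card_union_of_disjoint, card_image_of_injOn (insert_injOn hN z l _ _),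
      card_image_of_injOn (insert_injOn hN z l _ _)]
    · push_cast
      rw [ih, ih, lev_sub, lev_sub]
      have a := step_f z
      have b := step_t z
      have e1 : (P - step z false) (z + 2) = P (z + 2) := by simp only [Pi.sub_apply]; omega
      have e2 : (P - step z true) (z + 2) = P (z + 2) - 1 := by simp only [Pi.sub_apply]; omega
      rw [e1, e2]
      by_cases hl : lev z P = l + 1
      swap
      · rw [if_neg (by omega), if_neg (by omega), if_neg (by tauto)]; simp
      rw [if_pos (show P ∈ tri N ∧ _ from ⟨hP, hl⟩), B_pascal, B_pascal]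
      have hP' := (mem_tri' z).mp hP
      have hl' : P (z + 1) + 2 * P (z + 2) = l + 1 := hl
      have f1 : (if P - step z false ∈ tri N ∧ lev z P - 1 = l then
          B l (P (z + 2)) - B l (P (z + 2) - 1) else 0) =
          B l (P (z + 2)) - B l (P (z + 2) - 1) := by
        split_ifs with h
        · rfl
        · have h0 : P (z + 1) = 0 := by
            by_contra hne
            refine h ⟨?_, by omega⟩
            rw [mem_tri' z]; simp only [Pi.sub_apply]; omega
          have := X_zero (c := P (z + 2)) (by omega)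
          rw [X, show 0 + 2 * P (z + 2) - 1 = l by omega] at this
          exact this.symm
      have f2 : (if P - step z true ∈ tri N ∧ lev z P - 1 = l then
          B l (P (z + 2) - 1) - B l (P (z + 2) - 1 - 1) else 0) =
          B l (P (z + 2) - 1) - B l (P (z + 2) - 1 - 1) := by
        split_ifs with h
        · rfl
        · have h0 : P (z + 2) = 0 := by
            by_contra hne
            refine h ⟨?_, by omega⟩
            rw [mem_tri' z]; simp only [Pi.sub_apply]; omega
          rw [B_neg (by omega), B_neg (by omega)]; simp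
      rw [f1, f2]; ring
    · rw [disjoint_left]
      intro S h1 h2
      obtain ⟨S1, hS1, rfl⟩ := mem_image.mp h1
      obtain ⟨S2, hS2, e⟩ := mem_image.mp h2
      have hm : bone z (P - step z false) false ∈ insert (bone z (P - step z true) true) S2 := by
        rw [e]; exact mem_insert_self _ _
      rcases mem_insert.mp hm with h | h
      · exact absurd (bone_inj h).2 (by simp)
      · obtain ⟨Q', e, h1, -, -, h4, -⟩ := (chainProp hN hS2).2.shape _ h
        rw [← (bone_inj h1).1, lev_sub, lev_sub] at h4; omega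

lemma card_chD {N : ℤ} (hN : 0 ≤ N) (z : Fin 3) {P : Site} (hP : P ∈ tri N)
    (hc : 1 ≤ lev z P) (d : Bool) :
    ((chD N z P d).card : ℤ) =
      if d then Y (P (z + 1)) (P (z + 2)) else X (P (z + 1)) (P (z + 2)) := by
  rw [chD, if_pos hc, card_image_of_injOn (insert_injOn hN z _ _ _), card_chains hN, lev_sub]
  have a := step_f z
  have b := step_t z
  have hP' := (mem_tri' z).mp hP
  have hl : lev z P = P (z + 1) + 2 * P (z + 2) := rfl
  have e0 : (((lev z P - 1).toNat : ℕ) : ℤ) = P (z + 1) + 2 * P (z + 2) - 1 := by omega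
  rw [e0]
  cases d
  · have e1 : (P - step z false) (z + 2) = P (z + 2) := by simp only [Pi.sub_apply]; omega
    rw [e1]
    simp only [Bool.false_eq_true, if_false]
    split_ifs with h
    · rfl
    · have h0 : P (z + 1) = 0 := by
        by_contra hne
        refine h ⟨?_, by omega⟩
        rw [mem_tri' z]; simp only [Pi.sub_apply]; omega
      rw [h0, X_zero (by omega)]
  · have e2 : (P - step z true) (z + 2) = P (z + 2) - 1 := by simp only [Pi.sub_apply]; omega
    rw [e2]
    simp only [if_true]
    split_ifs with h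
    · rw [Y, show P (z + 2) - 1 - 1 = P (z + 2) - 2 by ring]
    · have h0 : P (z + 2) = 0 := by
        by_contra hne
        refine h ⟨?_, by omega⟩
        rw [mem_tri' z]; simp only [Pi.sub_apply]; omega
      rw [Y, B_neg (by omega), B_neg (by omega)]; simp

end Pool.Agent.Lib.MP_7e9d3d_co
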