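import Mathlib

/-! Benzels and their tilings by right stones and bones. -/

namespace Pool.Agent.Lib.MP_7e9d3d_co

/-- The `(a,b)`-benzel: cells `(i,j,k)` with `i+j+k=1` and `-(a-1) ≤ j-i, k-j, i-k ≤ b-1`. -/
def benzel (a b : ℤ) : Set (ℤ × ℤ × ℤ) :=
  {x | x.1 + x.2.1 + x.2.2 = 1 ∧
    (-(a - 1) ≤ x.2.1 - x.1 ∧ x.2.1 - x.1 ≤ b - 1) ∧
    (-(a - 1) ≤ x.2.2 - x.2.1 ∧ x.2.2 - x.2.1 ≤ b - 1) ∧
    (-(a - 1) ≤ x.1 - x.2.2 ∧ x.1 - x.2.2 ≤ b - 1)}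

/-- A translate of `{(1,0,0),(0,1,0),(0,0,1)}` by a vector with coordinate sum zero. -/
def IsRightStone (t : Set (ℤ × ℤ × ℤ)) : Prop :=
  ∃ w : ℤ × ℤ × ℤ, w.1 + w.2.1 + w.2.2 = 0 ∧ t = {w + (1, 0, 0), w + (0, 1, 0), w + (0, 0, 1)}

/-- Three cells in a row, in one of the three directions. -/
def IsBone (t : Set (ℤ × ℤ × ℤ)) : Prop :=
  ∃ c v : ℤ × ℤ × ℤ, c.1 + c.2.1 + c.2.2 = 1 ∧
    (v = (1, -1, 0) ∨ v = (0, 1, -1) ∨ v = (-1, 0, 1)) ∧ t = {c, c + v, c + v + v}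

/-- `T` is a partition of `R` into right stones and bones. -/
def IsTiling (R : Set (ℤ × ℤ × ℤ)) (T : Set (Set (ℤ × ℤ × ℤ))) : Prop :=
  (∀ t ∈ T, IsRightStone t ∨ IsBone t) ∧ T.PairwiseDisjoint id ∧ ⋃₀ T = R

/-- The number of tilings of the `(a,b)`-benzel by right stones and the three kinds of bones. -/
noncomputable def T103 (a b : ℤ) : ℕ := {T | IsTiling (benzel a b) T}.ncard

end Pool.Agent.Lib.MP_7e9d3d_co
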