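import Pool.Agent.Lib.MP_7e9d3d_co.Struct
import Pool.Agent.Lib.MP_7e9d3d_co.Defs

/-! From cells of the benzel to site coordinates. -/

namespace Pool.Agent.Lib.MP_7e9d3d_co

open Finset

def cell (z : Fin 3) (s : Site) : ℤ × ℤ × ℤ :=
  (s 1 - s 0 + (if z = 1 then 1 else 0), s 0 - s 2 + (if z = 0 then 1 else 0),
    s 2 - s 1 + (if z = 2 then 1 else 0))

def geo (τ : Tile) : Set (ℤ × ℤ × ℤ) := Set.range fun z => cell z (τ z)

lemma cell_inj {N : ℤ} {z y : Fin 3} {s t : Site} (hs : s ∈ tri N) (ht : t ∈ tri N)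
    (h : cell z s = cell y t) : z = y ∧ s = t := by
  rw [mem_tri] at hs ht
  rw [site_ext]
  fin_cases z <;> fin_cases y <;> simp [cell] at h ⊢ <;> omega

lemma mem_benzel {N : ℤ} {x : ℤ × ℤ × ℤ} : x ∈ benzel (N + 2) (2 * (N + 2) - 3) ↔
    ∃ z s, s ∈ tri N ∧ s ≠ corner N z ∧ x = cell z s := by
  obtain ⟨i, j, k⟩ := x
  simp only [benzel, Set.mem_ofPred_eq]
  constructor
  · intro h
    have h3 : (j - i + N + 1) % 3 = 0 ∨ (j - i + N + 1) % 3 = 1 ∨ (j - i + N + 1) % 3 = 2 := by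
      omega
    rcases h3 with h3 | h3 | h3
    · refine ⟨1, ![(j - i + N + 1) / 3, (i - k + N + 1) / 3, (k - j + N + 1) / 3], ?_⟩
      simp [mem_tri, site_ext, corner, cell]; omega
    · refine ⟨2, ![(j - i + N + 1) / 3, (i - k + N + 1) / 3, (k - j + N + 1) / 3], ?_⟩
      simp [mem_tri, site_ext, corner, cell]; omega
    · refine ⟨0, ![(j - i + N + 1) / 3, (i - k + N + 1) / 3, (k - j + N + 1) / 3], ?_⟩
      simp [mem_tri, site_ext, corner, cell]; omega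
  · rintro ⟨z, s, h1, h2, h3⟩
    rw [mem_tri] at h1
    fin_cases z <;> simp [site_ext, corner, cell] at h2 h3 <;> omega

lemma geo_perm (τ : Tile) (x y z : Fin 3) (h : ∀ w, w = x ∨ w = y ∨ w = z)
    {a b c : ℤ × ℤ × ℤ} (ha : cell x (τ x) = a) (hb : cell y (τ y) = b) (hc : cell z (τ z) = c) :
    geo τ = {a, b, c} := by
  subst ha hb hc
  ext u
  simp only [geo, Set.mem_range, Set.mem_insert_iff, Set.mem_singleton_iff]
  constructor
  · rintro ⟨w, rfl⟩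
    rcases h w with rfl | rfl | rfl <;> simp
  · rintro (rfl | rfl | rfl) <;> exact ⟨_, rfl⟩

lemma geo_good {τ : Tile} (h : GoodD τ) : IsRightStone (geo τ) ∨ IsBone (geo τ) := by
  simp only [GoodD, D] at h
  rcases h with h | h | h | h | h | h | h
  · refine Or.inl ⟨(τ 0 1 - τ 0 0, τ 0 0 - τ 0 2, τ 0 2 - τ 0 1), by simp,
      geo_perm τ 1 0 2 (by decide) ?_ (by simp [cell]) ?_⟩ <;> simp [cell] <;> omega
  · refine Or.inr ⟨cell 0 (τ 0), (-1, 0, 1), by simp [cell]; omega, by simp,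
      geo_perm τ 0 1 2 (by decide) rfl ?_ ?_⟩ <;> simp [cell] <;> omega
  · refine Or.inr ⟨cell 1 (τ 1), (-1, 0, 1), by simp [cell]; omega, by simp,
      geo_perm τ 1 2 0 (by decide) rfl ?_ ?_⟩ <;> simp [cell] <;> omega
  · refine Or.inr ⟨cell 1 (τ 1), (0, 1, -1), by simp [cell]; omega, by simp,
      geo_perm τ 1 2 0 (by decide) rfl ?_ ?_⟩ <;> simp [cell] <;> omega
  · refine Or.inr ⟨cell 2 (τ 2), (0, 1, -1), by simp [cell]; omega, by simp,
      geo_perm τ 2 0 1 (by decide) rfl ?_ ?_⟩ <;> simp [cell] <;> omega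
  · refine Or.inr ⟨cell 2 (τ 2), (1, -1, 0), by simp [cell]; omega, by simp,
      geo_perm τ 2 0 1 (by decide) rfl ?_ ?_⟩ <;> simp [cell] <;> omega
  · refine Or.inr ⟨cell 0 (τ 0), (1, -1, 0), by simp [cell]; omega, by simp,
      geo_perm τ 0 1 2 (by decide) rfl ?_ ?_⟩ <;> simp [cell] <;> omega

lemma classify {N : ℤ} {z1 z2 z3 : Fin 3} {s1 s2 s3 : Site} (h1 : s1 ∈ tri N) (h2 : s2 ∈ tri N)
    (h3 : s3 ∈ tri N)
    (h : (cell z2 s2 = cell z1 s1 + (-1, 1, 0) ∧ cell z3 s3 = cell z1 s1 + (-1, 0, 1)) ∨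
      ∃ v : ℤ × ℤ × ℤ, (v = (1, -1, 0) ∨ v = (0, 1, -1) ∨ v = (-1, 0, 1)) ∧
        cell z2 s2 = cell z1 s1 + v ∧ cell z3 s3 = cell z1 s1 + v + v) :
    ∃ τ : Tile, (GoodD τ ∨ Bad τ) ∧ τ z1 = s1 ∧ τ z2 = s2 ∧ τ z3 = s3 ∧
      ∀ z, z = z1 ∨ z = z2 ∨ z = z3 := by
  have a1 := (mem_tri.mp h1).2.2.2
  have a2 := (mem_tri.mp h2).2.2.2
  have a3 := (mem_tri.mp h3).2.2.2
  refine ⟨fun z => if z = z1 then s1 else if z = z2 then s2 else s3, ?_⟩
  have hv : ∀ τ : Tile, τ z1 = s1 → τ z2 = s2 → τ z3 = s3 →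
      (GoodD τ ∨ Bad τ) ∧ z2 ≠ z1 ∧ z3 ≠ z1 ∧ z3 ≠ z2 := by
    rintro τ rfl rfl rfl
    clear h1 h2 h3
    rcases h with h | ⟨v, rfl | rfl | rfl, h⟩ <;>
    fin_cases z1 <;> fin_cases z2 <;> fin_cases z3 <;> simp [cell] at h a1 a2 a3 <;>
    first
    | (exfalso; omega)
    | (refine ⟨?_, by decide⟩
       first
       | (refine Or.inl (Or.inl ?_); simp only [D]; omega)
       | (refine Or.inl (Or.inr (Or.inl ?_)); simp only [D]; omega)
       | (refine Or.inl (Or.inr (Or.inr (Or.inl ?_))); simp only [D]; omega)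
       | (refine Or.inl (Or.inr (Or.inr (Or.inr (Or.inl ?_)))); simp only [D]; omega)
       | (refine Or.inl (Or.inr (Or.inr (Or.inr (Or.inr (Or.inl ?_))))); simp only [D]; omega)
       | (refine Or.inl (Or.inr (Or.inr (Or.inr (Or.inr (Or.inr (Or.inl ?_)))))); simp only [D]; omega)
       | (refine Or.inl (Or.inr (Or.inr (Or.inr (Or.inr (Or.inr (Or.inr (?_))))))); simp only [D]; omega)
       | (refine Or.inr (Or.inl ?_); simp only [D]; omega)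
       | (refine Or.inr (Or.inr (Or.inl ?_)); simp only [D]; omega)
       | (refine Or.inr (Or.inr (Or.inr (Or.inl ?_))); simp only [D]; omega)
       | (refine Or.inr (Or.inr (Or.inr (Or.inr (Or.inl ?_)))); simp only [D]; omega)
       | (refine Or.inr (Or.inr (Or.inr (Or.inr (Or.inr (?_))))); simp only [D]; omega))
  have hne : z2 ≠ z1 ∧ z3 ≠ z1 ∧ z3 ≠ z2 := by
    clear hv h1 h2 h3
    rcases h with h | ⟨v, rfl | rfl | rfl, h⟩ <;>
    fin_cases z1 <;> fin_cases z2 <;> fin_cases z3 <;>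
    first
    | decide
    | (simp [cell] at h; omega)
  have e1 : (fun z => if z = z1 then s1 else if z = z2 then s2 else s3) z1 = s1 := by simp
  have e2 : (fun z => if z = z1 then s1 else if z = z2 then s2 else s3) z2 = s2 := by
    simp [hne.1]
  have e3 : (fun z => if z = z1 then s1 else if z = z2 then s2 else s3) z3 = s3 := by
    simp [hne.2.1, hne.2.2]
  refine ⟨(hv _ e1 e2 e3).1, e1, e2, e3, ?_⟩
  clear hv e1 e2 e3 h a1 a2 a3
  revert z1 z2 z3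
  decide

lemma exists_geo {N : ℤ} {t : Set (ℤ × ℤ × ℤ)} (ht : IsRightStone t ∨ IsBone t)
    (hs : t ⊆ benzel (N + 2) (2 * (N + 2) - 3)) :
    ∃ τ : Tile, (GoodD τ ∨ Bad τ) ∧ (∀ z, τ z ∈ tri N ∧ τ z ≠ corner N z) ∧ geo τ = t := by
  have key : ∀ x1 x2 x3 : ℤ × ℤ × ℤ, t = {x1, x2, x3} →
      ((x2 = x1 + (-1, 1, 0) ∧ x3 = x1 + (-1, 0, 1)) ∨
      ∃ v : ℤ × ℤ × ℤ, (v = (1, -1, 0) ∨ v = (0, 1, -1) ∨ v = (-1, 0, 1)) ∧
        x2 = x1 + v ∧ x3 = x1 + v + v) →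
      ∃ τ : Tile, (GoodD τ ∨ Bad τ) ∧ (∀ z, τ z ∈ tri N ∧ τ z ≠ corner N z) ∧ geo τ = t := by
    rintro x1 x2 x3 rfl h
    obtain ⟨z1, s1, a1, b1, rfl⟩ := mem_benzel.mp (hs (show x1 ∈ _ by simp))
    obtain ⟨z2, s2, a2, b2, rfl⟩ := mem_benzel.mp (hs (show x2 ∈ _ by simp))
    obtain ⟨z3, s3, a3, b3, rfl⟩ := mem_benzel.mp (hs (show x3 ∈ _ by simp))
    obtain ⟨τ, hv, rfl, rfl, rfl, hz⟩ := classify a1 a2 a3 h
    refine ⟨τ, hv, fun z => ?_, ?_⟩
    · rcases hz z with rfl | rfl | rfl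
      exacts [⟨a1, b1⟩, ⟨a2, b2⟩, ⟨a3, b3⟩]
    · ext x
      simp only [geo, Set.mem_range, Set.mem_insert_iff, Set.mem_singleton_iff]
      constructor
      · rintro ⟨z, rfl⟩
        rcases hz z with rfl | rfl | rfl <;> simp
      · rintro (rfl | rfl | rfl) <;> exact ⟨_, rfl⟩
  rcases ht with ⟨w, -, h⟩ | ⟨c, v, -, hv, h⟩
  · exact key _ _ _ h (Or.inl ⟨by ext <;> simp, by ext <;> simp⟩)
  · exact key _ _ _ h (Or.inr ⟨v, hv, rfl, rfl⟩)

lemma geo_inj {N : ℤ} {τ σ : Tile} (hτ : ∀ z, τ z ∈ tri N) (hσ : ∀ z, σ z ∈ tri N)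
    (h : geo τ = geo σ) : τ = σ := by
  funext z
  obtain ⟨y, hy⟩ : cell z (τ z) ∈ geo σ := h ▸ ⟨z, rfl⟩
  obtain ⟨rfl, e⟩ := cell_inj (hσ y) (hτ z) hy
  exact e.symm

theorem T103_eq {N : ℤ} (hN : 0 ≤ N) :
    T103 (N + 2) (2 * (N + 2) - 3) = {T | ATiling N T}.ncard := by
  classical
  have : {T | IsTiling (benzel (N + 2) (2 * (N + 2) - 3)) T} =
      (fun T : Finset Tile => geo '' (T : Set Tile)) '' {T | ATiling N T} := by
    ext G
    simp only [Set.mem_ofPred_eq, Set.mem_image]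
    constructor
    · rintro ⟨hv, hd, hu⟩
      have hsub : ∀ t ∈ G, t ⊆ benzel (N + 2) (2 * (N + 2) - 3) :=
        fun t ht => hu ▸ Set.subset_sUnion_of_mem ht
      refine ⟨(Fintype.piFinset fun _ => tri N).filter fun τ =>
        (GoodD τ ∨ Bad τ) ∧ (∀ z, τ z ≠ corner N z) ∧ geo τ ∈ G, ⟨?_, ?_, ?_, ?_⟩, ?_⟩
      · intro τ hτ
        exact (mem_filter.mp hτ).2.1
      · intro τ hτ z
        exact ⟨Fintype.mem_piFinset.mp (mem_filter.mp hτ).1 z, (mem_filter.mp hτ).2.2.1 z⟩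
      · intro z s hs hne
        have : cell z s ∈ ⋃₀ G := hu ▸ mem_benzel.mpr ⟨z, s, hs, hne, rfl⟩
        obtain ⟨t, ht, hx⟩ := this
        obtain ⟨τ, h1, h2, rfl⟩ := exists_geo (hv t ht) (hsub t ht)
        obtain ⟨y, hy⟩ := hx
        obtain ⟨rfl, e⟩ := cell_inj (h2 y).1 hs hy
        exact ⟨τ, mem_filter.mpr ⟨Fintype.mem_piFinset.mpr fun z => (h2 z).1, h1,
          fun z => (h2 z).2, ht⟩, e⟩
      · intro τ hτ σ hσ z e
        obtain ⟨a1, -, -, a2⟩ := mem_filter.mp hτ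
        obtain ⟨b1, -, -, b2⟩ := mem_filter.mp hσ
        refine geo_inj (Fintype.mem_piFinset.mp a1) (Fintype.mem_piFinset.mp b1) ?_
        by_contra hne
        exact Set.disjoint_left.mp (hd a2 b2 hne) (show cell z (τ z) ∈ geo τ from ⟨z, rfl⟩)
          (show cell z (τ z) ∈ geo σ from ⟨z, by rw [e]⟩)
      · ext t
        simp only [Set.mem_image, mem_coe, mem_filter, Fintype.mem_piFinset]
        constructor
        · rintro ⟨τ, h, rfl⟩
          exact h.2.2.2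
        · intro ht
          obtain ⟨τ, h1, h2, rfl⟩ := exists_geo (hv t ht) (hsub t ht)
          exact ⟨τ, ⟨fun z => (h2 z).1, h1, fun z => (h2 z).2, ht⟩, rfl⟩
    · rintro ⟨T, h, rfl⟩
      refine ⟨?_, ?_, ?_⟩
      · rintro _ ⟨τ, hτ, rfl⟩
        exact geo_good ((h.valid τ hτ).resolve_right (h.no_bad hN τ hτ))
      · rintro _ ⟨τ, hτ, rfl⟩ _ ⟨σ, hσ, rfl⟩ hne
        refine Set.disjoint_left.mpr ?_
        rintro _ ⟨z, rfl⟩ ⟨y, hy⟩
        obtain ⟨rfl, e⟩ := cell_inj (h.reg σ hσ y).1 (h.reg τ hτ z).1 hy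
        exact hne (by rw [h.uniq τ hτ σ hσ y e.symm])
      · ext x
        rw [mem_benzel]
        constructor
        · rintro ⟨_, ⟨τ, hτ, rfl⟩, z, rfl⟩
          exact ⟨z, τ z, (h.reg τ hτ z).1, (h.reg τ hτ z).2, rfl⟩
        · rintro ⟨z, s, hs, hne, rfl⟩
          obtain ⟨τ, hτ, rfl⟩ := h.cover z s hs hne
          exact ⟨_, ⟨τ, hτ, rfl⟩, z, rfl⟩
  rw [T103, this, Set.InjOn.ncard_image]
  have sub : ∀ T T' : Finset Tile, ATiling N T → ATiling N T' →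
      geo '' (T : Set Tile) = geo '' (T' : Set Tile) → T ⊆ T' := by
    intro T T' h h' e τ hτ
    obtain ⟨σ, hσ, e'⟩ : geo τ ∈ geo '' (T' : Set Tile) := e ▸ ⟨τ, hτ, rfl⟩
    rwa [← geo_inj (fun z => (h'.reg σ hσ z).1) (fun z => (h.reg τ hτ z).1) e']
  intro T h T' h' e
  exact Subset.antisymm (sub T T' h h' e) (sub T' T h' h e.symm)

end Pool.Agent.Lib.MP_7e9d3d_co
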