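import Pool.Agent.Lib.MP_7e9d3d_co.Chains

/-! Abstract tilings; tiles that meet three different sites do not occur. -/

namespace Pool.Agent.Lib.MP_7e9d3d_co

open Finset

/-- Offsets of the second and third site of a tile from the first. -/
def D (τ : Tile) (a b c d e f : ℤ) : Prop :=
  τ 1 0 = τ 0 0 + a ∧ τ 1 1 = τ 0 1 + b ∧ τ 1 2 = τ 0 2 + c ∧
  τ 2 0 = τ 0 0 + d ∧ τ 2 1 = τ 0 1 + e ∧ τ 2 2 = τ 0 2 + f

def Good (τ : Tile) : Prop := (∃ s, τ = stone s) ∨ ∃ z s d, τ = bone z s d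

def GoodD (τ : Tile) : Prop :=
  D τ 0 0 0 0 0 0 ∨ D τ 1 (-1) 0 1 (-1) 0 ∨ D τ 0 1 (-1) 0 1 (-1) ∨ D τ 0 (-1) 1 0 0 0 ∨
  D τ 1 0 (-1) 0 0 0 ∨ D τ 0 0 0 1 0 (-1) ∨ D τ 0 0 0 (-1) 1 0

def Bad (τ : Tile) : Prop :=
  D τ 1 (-1) 0 1 0 (-1) ∨ D τ 1 0 (-1) 0 1 (-1) ∨ D τ 1 (-1) 0 0 1 (-1) ∨
  D τ 1 0 (-1) 1 1 (-2) ∨ D τ 2 (-1) (-1) 1 0 (-1)

lemma tile_ext {τ σ : Tile} : τ = σ ↔ τ 0 = σ 0 ∧ τ 1 = σ 1 ∧ τ 2 = σ 2 := by
  rw [funext_iff]
  simp only [Fin.forall_fin_succ, IsEmpty.forall_iff, and_true, Fin.succ_zero_eq_one,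
    Fin.succ_one_eq_two]

lemma good_iff {τ : Tile} : Good τ ↔ GoodD τ := by
  constructor
  · rintro (⟨s, rfl⟩ | ⟨z, s, d, rfl⟩)
    · simp [GoodD, D, stone]
    · fin_cases z <;> cases d <;> simp [GoodD, D, bone, step, p]
  · rintro (h | h | h | h | h | h | h)
    · refine Or.inl ⟨τ 0, ?_⟩
      simp only [D] at h
      simp [tile_ext, site_ext, stone]; omega
    · refine Or.inr ⟨0, τ 1, false, ?_⟩
      simp only [D] at h
      simp [tile_ext, site_ext, bone, step, p]; omega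
    · refine Or.inr ⟨0, τ 1, true, ?_⟩
      simp only [D] at h
      simp [tile_ext, site_ext, bone, step, p]; omega
    · refine Or.inr ⟨1, τ 0, false, ?_⟩
      simp only [D] at h
      simp [tile_ext, site_ext, bone, step, p]; omega
    · refine Or.inr ⟨1, τ 0, true, ?_⟩
      simp only [D] at h
      simp [tile_ext, site_ext, bone, step, p]; omega
    · refine Or.inr ⟨2, τ 0, false, ?_⟩
      simp only [D] at h
      simp [tile_ext, site_ext, bone, step, p]; omega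
    · refine Or.inr ⟨2, τ 0, true, ?_⟩
      simp only [D] at h
      simp [tile_ext, site_ext, bone, step, p]; omega

/-- A tiling in site coordinates. -/
structure ATiling (N : ℤ) (T : Finset Tile) : Prop where
  valid : ∀ τ ∈ T, GoodD τ ∨ Bad τ
  reg : ∀ τ ∈ T, ∀ z, τ z ∈ tri N ∧ τ z ≠ corner N z
  cover : ∀ z s, s ∈ tri N → s ≠ corner N z → ∃ τ ∈ T, τ z = s
  uniq : ∀ τ ∈ T, ∀ τ' ∈ T, ∀ z, τ z = τ' z → τ = τ'

lemma ATiling.sum_col {N : ℤ} (hN : 0 ≤ N) {T : Finset Tile} (h : ATiling N T) (z : Fin 3)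
    (g : Site → ℤ) : ∑ τ ∈ T, g (τ z) = ∑ s ∈ tri N, g s - g (corner N z) := by
  rw [← Finset.sum_erase_eq_sub (corner_mem hN z)]
  refine Finset.sum_bij (fun τ _ => τ z) ?_ ?_ ?_ ?_
  · intro τ hτ
    exact mem_erase.mpr ⟨(h.reg τ hτ z).2, (h.reg τ hτ z).1⟩
  · intro τ hτ τ' hτ' e
    exact h.uniq τ hτ τ' hτ' z e
  · intro s hs
    obtain ⟨τ, hτ, e⟩ := h.cover z s (mem_erase.mp hs).2 (mem_erase.mp hs).1
    exact ⟨τ, hτ, e⟩
  · intro τ _; rfl

lemma ATiling.sum_diff {N : ℤ} (hN : 0 ≤ N) {T : Finset Tile} (h : ATiling N T) (y z : Fin 3)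
    (g : Site → ℤ) : ∑ τ ∈ T, (g (τ y) - g (τ z)) = g (corner N z) - g (corner N y) := by
  rw [Finset.sum_sub_distrib, h.sum_col hN, h.sum_col hN]; ring

lemma others_zero {T : Finset Tile} {t : Tile} (ht : t ∈ T) {f : Tile → ℤ}
    (h0 : ∀ τ ∈ T, 0 ≤ f τ) (h1 : ∑ τ ∈ T, f τ = 1) (h2 : f t = 1) :
    ∀ τ ∈ T, τ ≠ t → f τ = 0 := by
  rw [← Finset.add_sum_erase T f ht, h2, add_eq_left,
    Finset.sum_eq_zero_iff_of_nonneg fun τ hτ => h0 τ (mem_of_mem_erase hτ)] at h1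
  intro τ hτ hne
  exact h1 τ (mem_erase.mpr ⟨hne, hτ⟩)

theorem ATiling.no_bad {N : ℤ} (hN : 0 ≤ N) {T : Finset Tile} (h : ATiling N T) :
    ∀ t ∈ T, ¬ Bad t := by
  intro t ht hb
  have r0 := mem_tri.mp (h.reg t ht 0).1
  have r1 := mem_tri.mp (h.reg t ht 1).1
  have r2 := mem_tri.mp (h.reg t ht 2).1
  simp only [Bad, D] at hb
  obtain ⟨k, hk⟩ : ∃ k, k = t 0 0 := ⟨_, rfl⟩
  obtain ⟨l, hl⟩ : ∃ l, l = t 1 1 := ⟨_, rfl⟩
  obtain ⟨m, hm⟩ : ∃ m, m = t 2 2 := ⟨_, rfl⟩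
  have hs : k + l + m = N - 2 ∨ k + l + m = N - 1 := by omega
  have c0 := corner_v N 0
  have c1 := corner_v N 1
  have c2 := corner_v N 2
  simp only [zero_add, Fin.reduceAdd] at c0 c1 c2
  have ea := others_zero ht
    (f := fun τ => (if τ 0 0 ≤ k then 1 else 0) - (if τ 1 0 ≤ k then 1 else 0))
    (fun τ hτ => by
      have := h.valid τ hτ
      simp only [GoodD, Bad, D] at this
      split_ifs <;> omega)
    (by rw [h.sum_diff hN 0 1 (fun s => if s 0 ≤ k then 1 else 0)]; split_ifs <;> omega)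
    (by split_ifs <;> omega)
  have eb := others_zero ht
    (f := fun τ => (if τ 1 1 ≤ l then 1 else 0) - (if τ 2 1 ≤ l then 1 else 0))
    (fun τ hτ => by
      have := h.valid τ hτ
      simp only [GoodD, Bad, D] at this
      split_ifs <;> omega)
    (by rw [h.sum_diff hN 1 2 (fun s => if s 1 ≤ l then 1 else 0)]; split_ifs <;> omega)
    (by split_ifs <;> omega)
  have ec := others_zero ht
    (f := fun τ => (if τ 2 2 ≤ m then 1 else 0) - (if τ 0 2 ≤ m then 1 else 0))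
    (fun τ hτ => by
      have := h.valid τ hτ
      simp only [GoodD, Bad, D] at this
      split_ifs <;> omega)
    (by rw [h.sum_diff hN 2 0 (fun s => if s 2 ≤ m then 1 else 0)]; split_ifs <;> omega)
    (by split_ifs <;> omega)
  have s1 := h.sum_diff hN 1 2 (fun s => if s 0 ≤ k ∧ s 1 ≤ l then 1 else 0)
  have s2 := h.sum_diff hN 2 0 (fun s => if k < s 0 ∧ m < s 2 then 1 else 0)
  have s3 : ∑ τ ∈ T, (((if τ 1 0 ≤ k ∧ τ 1 1 ≤ l then 1 else 0) -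
      (if τ 2 0 ≤ k ∧ τ 2 1 ≤ l then 1 else 0)) -
      ((if k < τ 2 0 ∧ m < τ 2 2 then 1 else 0) -
      (if k < τ 0 0 ∧ m < τ 0 2 then (1 : ℤ) else 0))) = 0 := by
    refine Finset.sum_eq_zero fun τ hτ => ?_
    by_cases he : τ = t
    · subst he
      split_ifs <;> omega
    · have a := ea τ hτ he
      have b := eb τ hτ he
      have c := ec τ hτ he
      have a' : τ 0 0 ≤ k ↔ τ 1 0 ≤ k := by split_ifs at a <;> omega
      have b' : τ 1 1 ≤ l ↔ τ 2 1 ≤ l := by split_ifs at b <;> omega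
      have c' : τ 2 2 ≤ m ↔ τ 0 2 ≤ m := by split_ifs at c <;> omega
      have q0 := (mem_tri.mp (h.reg τ hτ 0).1).2.2.2
      have := h.valid τ hτ
      simp only [GoodD, Bad, D] at this
      clear a b c ea eb ec s1 s2 hb r0 r1 r2 c0 c1 c2 hk hl hm
      split_ifs <;> omega
  rw [Finset.sum_sub_distrib, s1, s2] at s3
  split_ifs at s3 <;> omega

end Pool.Agent.Lib.MP_7e9d3d_co
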