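import Pool.Agent.Lib.MP_7e9d3d_co.Build

/-! Every tiling is built from three chains; the count. -/

namespace Pool.Agent.Lib.MP_7e9d3d_co

open Finset

/-- `τ` is a tile based at the site `s`. -/
def Based (τ : Tile) (s : Site) : Prop := τ = stone s ∨ ∃ z d, τ = bone z s d

lemma ATiling.based_unique {N : ℤ} {T : Finset Tile} (h : ATiling N T) {τ σ : Tile} (hτ : τ ∈ T)
    (hσ : σ ∈ T) {s : Site} (h1 : Based τ s) (h2 : Based σ s) : τ = σ := by
  rcases h1 with rfl | ⟨z, d, rfl⟩ <;> rcases h2 with rfl | ⟨y, e, rfl⟩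
  · rfl
  · exact h.uniq _ hτ _ hσ (y + 1) (by simp [stone])
  · exact h.uniq _ hτ _ hσ (z + 1) (by simp [stone])
  · obtain ⟨x, hx, hy⟩ := third z y
    exact h.uniq _ hτ _ hσ x (by rw [bone_ne hx, bone_ne hy])

/-- The cell of colour `z` at `Q` is not covered by a tile based at `Q`. -/
def Opn (T : Finset Tile) (z : Fin 3) (Q : Site) : Prop := ∀ τ ∈ T, Based τ Q → τ z ≠ Q

lemma ATiling.opn_of_bone {N : ℤ} {T : Finset Tile} (h : ATiling N T) {z : Fin 3} {Q : Site}
    {d : Bool} (hb : bone z Q d ∈ T) : Opn T z Q := by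
  intro τ hτ h1 h2
  rw [h.based_unique hτ hb h1 (Or.inr ⟨z, d, rfl⟩), bone_self] at h2
  exact add_step_ne _ _ _ h2

lemma ATiling.prev {N : ℤ} (hN : 0 ≤ N) {T : Finset Tile} (h : ATiling N T) {z : Fin 3}
    {Q : Site} (hQ : Q ∈ tri N) (hl : lev z Q ≠ 0) (ho : Opn T z Q) :
    ∃ d, bone z (Q - step z d) d ∈ T ∧ Q - step z d ∈ tri N := by
  obtain ⟨τ, hτ, e⟩ := h.cover z Q hQ (by rintro rfl; exact hl (lev_corner N z))
  have hg : Good τ := good_iff.mpr ((h.valid τ hτ).resolve_right (h.no_bad hN τ hτ))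
  rcases hg with ⟨s, rfl⟩ | ⟨y, s, d, rfl⟩
  · exact absurd e (ho _ hτ (Or.inl (congrArg stone e)))
  · by_cases hyz : z = y
    · subst hyz
      rw [bone_self] at e
      have : s = Q - step z d := by rw [← e, add_sub_cancel_right]
      subst this
      exact ⟨d, hτ, by simpa using (h.reg _ hτ (z + 1)).1⟩
    · have e' := e
      rw [bone_ne hyz] at e'
      exact absurd e (ho _ hτ (Or.inr ⟨y, d, by rw [e']⟩))

lemma ATiling.back {N : ℤ} (hN : 0 ≤ N) {T : Finset Tile} (h : ATiling N T) {z : Fin 3} :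
    ∀ (l : ℕ) (Q : Site), Q ∈ tri N → lev z Q = l → Opn T z Q →
      ∃ S ∈ chains N z l Q, S ⊆ T := by
  intro l
  induction l with
  | zero =>
    intro Q hQ hl _
    exact ⟨∅, mem_chains_zero.mpr ⟨eq_corner hQ (by simpa using hl), rfl⟩, empty_subset _⟩
  | succ l ih =>
    intro Q hQ hl ho
    obtain ⟨d, hb, hm⟩ := h.prev hN hQ (by omega) ho
    obtain ⟨S, hS, hsub⟩ := ih _ hm (by rw [lev_sub]; push_cast at hl; omega) (h.opn_of_bone hb)
    exact ⟨_, mem_chains_succ.mpr ⟨hQ, d, S, hS, rfl⟩, insert_subset hb hsub⟩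

lemma ATiling.opn_unique {N : ℤ} (hN : 0 ≤ N) {T : Finset Tile} (h : ATiling N T) {z : Fin 3} :
    ∀ (l : ℕ) (Q Q' : Site), Q ∈ tri N → Q' ∈ tri N → lev z Q = l → lev z Q' = l →
      Opn T z Q → Opn T z Q' → Q = Q' := by
  intro l
  induction l with
  | zero =>
    intro Q Q' hQ hQ' hl hl' _ _
    rw [eq_corner hQ (by simpa using hl), eq_corner hQ' (by simpa using hl')]
  | succ l ih =>
    intro Q Q' hQ hQ' hl hl' ho ho'
    obtain ⟨d, hb, hm⟩ := h.prev hN hQ (by omega) ho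
    obtain ⟨d', hb', hm'⟩ := h.prev hN hQ' (by omega) ho'
    have e := ih _ _ hm hm' (by rw [lev_sub]; push_cast at hl; omega)
      (by rw [lev_sub]; push_cast at hl'; omega) (h.opn_of_bone hb) (h.opn_of_bone hb')
    have e2 := h.based_unique hb hb' (Or.inr ⟨z, d, rfl⟩) (Or.inr ⟨z, d', by rw [e]⟩)
    obtain rfl := (bone_inj e2).2
    exact sub_left_injective e

lemma ATiling.opn_unique' {N : ℤ} (hN : 0 ≤ N) {T : Finset Tile} (h : ATiling N T) {z : Fin 3}
    {Q Q' : Site} (hQ : Q ∈ tri N) (hQ' : Q' ∈ tri N) (hl : lev z Q = lev z Q')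
    (ho : Opn T z Q) (ho' : Opn T z Q') : Q = Q' := by
  have := lev_nonneg z hQ
  exact h.opn_unique hN (lev z Q).toNat Q Q' hQ hQ' (by omega) (by omega) ho ho'

lemma ATiling.exists_sink {N : ℤ} (hN : 0 ≤ N) {T : Finset Tile} (h : ATiling N T) :
    ∃ P ∈ tri N, ∀ τ ∈ T, ¬ Based τ P := by
  classical
  obtain ⟨P, hP, hmax⟩ := exists_max_image ((tri N).filter (Opn T 0)) (lev 0)
    ⟨corner N 0, mem_filter.mpr ⟨corner_mem hN 0, fun τ hτ _ => (h.reg τ hτ 0).2⟩⟩
  obtain ⟨hP, ho⟩ := mem_filter.mp hP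
  refine ⟨P, hP, fun τ hτ hb => ?_⟩
  have h0 := ho τ hτ hb
  rcases hb with rfl | ⟨y, d, rfl⟩
  · exact h0 rfl
  · by_cases hy : 0 = y
    · subst hy
      have hm := (h.reg _ hτ 0).1
      rw [bone_self] at hm
      have := hmax _ (mem_filter.mpr ⟨hm, fun σ hσ hb e => ?_⟩)
      · rw [lev_add] at this; omega
      · have e2 := h.uniq _ hσ _ hτ 0 (by rw [e, bone_self])
        subst e2
        rcases hb with hb | ⟨x, c, hb⟩
        · exact stone_ne_bone _ _ _ _ hb.symm
        · obtain rfl := bone_col hb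
          exact add_step_ne _ _ _ (bone_inj hb).1.symm
    · exact h0 (bone_ne hy _ _)

lemma ATiling.eq_of_subset {N : ℤ} {T T' : Finset Tile} (h : ATiling N T) (h' : ATiling N T')
    (hs : T ⊆ T') : T = T' := by
  refine Subset.antisymm hs fun σ hσ => ?_
  obtain ⟨τ, hτ, e⟩ := h.cover 0 (σ 0) (h'.reg σ hσ 0).1 (h'.reg σ hσ 0).2
  rwa [← h'.uniq τ (hs hτ) σ hσ 0 e]

theorem ATiling.exists_build {N : ℤ} (hN1 : 1 ≤ N) {T : Finset Tile} (h : ATiling N T) :
    ∃ P ∈ tri N, ∃ d, ∃ S : Fin 3 → Finset Tile, (∀ z, S z ∈ chD N z P d) ∧ T = build N P S := by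
  have hN : 0 ≤ N := by omega
  obtain ⟨P, hP, hs⟩ := h.exists_sink hN
  have ho : ∀ z, Opn T z P := fun z τ hτ hb => absurd hb (hs τ hτ)
  have conflict : ∀ z, bone z (P - step z true) true ∈ T →
      bone (z + 1) (P - step (z + 1) false) false ∈ T → False := by
    intro z h1 h2
    have := h.based_unique h1 h2 (Or.inr ⟨z, true, rfl⟩) (Or.inr ⟨z + 1, false, rfl⟩)
    exact succ_ne z (bone_col this).symm
  have hlev : ∀ z, lev z P ≠ 0 := by
    intro z h0
    have hm := (mem_tri' z).mp hP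
    simp only [lev] at h0
    obtain ⟨d1, b1, m1⟩ := h.prev hN (z := z + 1) hP
      (by simp only [lev, add_one_add_one, add_one_add_two]; omega) (ho _)
    obtain ⟨d2, b2, m2⟩ := h.prev hN (z := z + 1 + 1) hP
      (by simp only [lev, add_one_add_one, add_two_add_one, add_two_add_two]; omega) (ho _)
    have a1 := step_f (z + 1)
    have a2 := step_t (z + 1 + 1)
    simp only [add_one_add_one, add_one_add_two, add_two_add_one, add_two_add_two] at a1 a2
    cases d1
    · rw [mem_tri' z] at m1; simp only [Pi.sub_apply] at m1; omega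
    cases d2
    · exact conflict _ b1 b2
    · rw [mem_tri' z, add_one_add_one] at m2; simp only [Pi.sub_apply] at m2; omega
  choose d hd hm using fun z => h.prev hN hP (hlev z) (ho z)
  have hdd : ∀ z, d z = d 0 := by
    have c : ∀ z, d z = true → d (z + 1) = true := by
      intro z h1
      by_contra h2
      have h2' : d (z + 1) = false := by simpa using h2
      exact conflict z (h1 ▸ hd z) (h2' ▸ hd (z + 1))
    have c0 := c 0
    have c1 := c 1
    have c2 := c 2
    simp only [zero_add, Fin.reduceAdd] at c0 c1 c2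
    intro z
    fin_cases z
    · rfl
    · show d 1 = d 0
      revert c0 c1 c2; cases d 0 <;> cases d 1 <;> cases d 2 <;> simp
    · show d 2 = d 0
      revert c0 c1 c2; cases d 0 <;> cases d 1 <;> cases d 2 <;> simp
  have hl1 : ∀ z, 1 ≤ lev z P := fun z => by
    have := lev_nonneg z hP
    have := hlev z
    omega
  choose S' hS' hsub using fun z => h.back hN (lev z P - 1).toNat _ (hm z)
    (by rw [lev_sub]; have := hl1 z; omega) (h.opn_of_bone (hd z))
  have hS : ∀ z, insert (bone z (P - step z (d z)) (d z)) (S' z) ∈ chD N z P (d 0) := by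
    intro z
    rw [← hdd z]
    exact mem_chD.mpr ⟨hl1 z, S' z, hS' z, rfl⟩
  have hST : ∀ z, insert (bone z (P - step z (d z)) (d z)) (S' z) ⊆ T :=
    fun z => insert_subset (hd z) (hsub z)
  generalize hgen : (fun z => insert (bone z (P - step z (d z)) (d z)) (S' z)) = S
  have hS2 : ∀ z, S z ∈ chD N z P (d 0) := by rw [← hgen]; exact hS
  have hST2 : ∀ z, S z ⊆ T := by rw [← hgen]; exact hST
  refine ⟨P, hP, d 0, S, hS2, h.eq_of_subset (build_tiling hN hP hS2) ?_⟩
  have hc : ∀ z, ChainProp N z P (S z) := fun z => (chainProp hN (chD_chains hP (hS2 z))).2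
  intro τ hτ
  have hg : Good τ := good_iff.mpr ((h.valid τ hτ).resolve_right (h.no_bad hN τ hτ))
  rcases hg with ⟨s, rfl⟩ | ⟨z, Q, e, rfl⟩
  · refine mem_build.mpr (Or.inl ⟨s, ⟨(h.reg _ hτ 0).1, ?_, ?_⟩, rfl⟩)
    · rintro rfl
      exact hs _ hτ (Or.inl rfl)
    · intro z σ hσ e
      obtain ⟨Q, a, rfl, -⟩ := (hc z).shape σ hσ
      rw [bone_succ] at e
      subst e
      exact stone_ne_bone _ _ _ _
        (h.based_unique hτ (hST2 z hσ) (Or.inl rfl) (Or.inr ⟨z, a, rfl⟩))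
  · refine mem_build.mpr (Or.inr ⟨z, ?_⟩)
    have hQ : Q ∈ tri N := by simpa using (h.reg _ hτ (z + 1)).1
    have hoQ := h.opn_of_bone hτ
    have hQ0 := lev_nonneg z hQ
    rcases lt_trichotomy (lev z Q) (lev z P) with hlt | heq | hgt
    · obtain ⟨σ, hσ, e2⟩ := (hc z).all _ hQ0 hlt
      obtain ⟨Q', a, rfl, hQ', -⟩ := (hc z).shape σ hσ
      rw [bone_succ] at e2
      obtain rfl := h.opn_unique' hN hQ' hQ e2 (h.opn_of_bone (hST2 z hσ)) hoQ
      rwa [h.based_unique hτ (hST2 z hσ) (Or.inr ⟨z, e, rfl⟩) (Or.inr ⟨z, a, rfl⟩)]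
    · obtain rfl := h.opn_unique' hN hQ hP heq hoQ (ho z)
      exact absurd (Or.inr ⟨z, e, rfl⟩) (hs _ hτ)
    · obtain ⟨R, hR, hRT⟩ := h.back hN (lev z Q).toNat Q hQ (by omega) hoQ
      have hcR := (chainProp hN hR).2
      obtain ⟨σ, hσ, e2⟩ := hcR.all _ (lev_nonneg z hP) hgt
      obtain ⟨Q', a, rfl, hQ', -⟩ := hcR.shape σ hσ
      rw [bone_succ] at e2
      obtain rfl := h.opn_unique' hN hQ' hP e2 (h.opn_of_bone (hRT hσ)) (ho z)
      exact absurd (Or.inr ⟨z, a, rfl⟩) (hs _ (hRT hσ))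

/-- Index set of the tilings. -/
noncomputable def Idx (N : ℤ) : Finset (Σ _ : Site × Bool, Fin 3 → Finset Tile) :=
  (tri N ×ˢ univ).sigma fun x => Fintype.piFinset fun z => chD N z x.1 x.2

lemma card_Idx {N : ℤ} (hN1 : 1 ≤ N) :
    ((Idx N).card : ℤ) = 2 * B (3 * N - 1) (N - 3) - B (3 * N - 1) (N - 4) := by
  have hN : 0 ≤ N := by omega
  rw [← total hN1, Idx, card_sigma, sum_product]
  push_cast
  refine Finset.sum_congr rfl fun P hP => ?_
  simp only [Fintype.card_piFinset, Fintype.sum_bool, Fin.prod_univ_three]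
  push_cast
  by_cases hl : ∀ z, 1 ≤ lev z P
  · simp only [card_chD hN _ hP (hl _)]
    simp only [if_true, Bool.false_eq_true, if_false, zero_add, Fin.reduceAdd]
    ring
  · have hm := mem_tri.mp hP
    have hY : Y 0 0 = 0 := by rw [Y, B_neg (by omega), B_neg (by omega)]; simp
    have hX := X_zero (c := N) (by omega)
    push Not at hl
    obtain ⟨z, hz⟩ := hl
    have he : ∀ d, chD N z P d = ∅ := fun d => by rw [chD, if_neg (by omega)]
    fin_cases z
    · simp only [lev, Fin.zero_eta, zero_add] at hz he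
      rw [he, he, show P 0 = N by omega, show P 1 = 0 by omega, show P 2 = 0 by omega, hX, hY]
      simp
    · simp only [lev, Fin.mk_one, Fin.reduceAdd] at hz he
      rw [he, he, show P 0 = 0 by omega, show P 1 = N by omega, show P 2 = 0 by omega, hX, hY]
      simp
    · simp only [lev, Fin.reduceFinMk, Fin.reduceAdd] at hz he
      rw [he, he, show P 0 = 0 by omega, show P 1 = 0 by omega, show P 2 = N by omega, hX, hY]
      simp

theorem ncard_atiling {N : ℤ} (hN1 : 1 ≤ N) :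
    ({T | ATiling N T}.ncard : ℤ) = 2 * B (3 * N - 1) (N - 3) - B (3 * N - 1) (N - 4) := by
  have hN : 0 ≤ N := by omega
  have : {T | ATiling N T} = ↑((Idx N).image fun x => build N x.1.1 x.2) := by
    ext T
    simp only [Set.mem_ofPred_eq, coe_image, Set.mem_image, mem_coe, Idx, mem_sigma, mem_product,
      mem_univ, and_true, Fintype.mem_piFinset]
    constructor
    · intro h
      obtain ⟨P, hP, d, S, hS, e⟩ := h.exists_build hN1
      exact ⟨⟨(P, d), S⟩, ⟨hP, hS⟩, e.symm⟩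
    · rintro ⟨x, ⟨hP, hS⟩, rfl⟩
      exact build_tiling hN hP hS
  rw [this, Set.ncard_coe_finset, card_image_of_injOn, card_Idx hN1]
  rintro ⟨⟨P, d⟩, S⟩ hx ⟨⟨P', d'⟩, S'⟩ hy e
  simp only [Idx, coe_sigma, Set.mem_sigma_iff, mem_coe, mem_product, mem_univ, and_true,
    Fintype.mem_piFinset] at hx hy
  obtain ⟨rfl, rfl, rfl⟩ := build_inj hN hx.1 hy.1 hx.2 hy.2 e
  rfl

end Pool.Agent.Lib.MP_7e9d3d_co
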