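import Mathlib

/-! Binomial sums over the lattice triangle. -/

namespace Pool.Agent.Lib.MP_7e9d3d_co

open Finset

/-- Generalised binomial coefficient with integer arguments. -/
noncomputable def B (n k : ℤ) : ℤ := if 0 ≤ k then Ring.choose n k.toNat else 0

lemma B_neg {n k : ℤ} (h : k < 0) : B n k = 0 := by simp [B, not_le.mpr h]

lemma B_zero (n : ℤ) : B n 0 = 1 := by simp [B]

lemma B_nat (n k : ℕ) : B n k = n.choose k := by
  simp [B, Ring.choose_natCast]

lemma B_pascal (n k : ℤ) : B (n + 1) k = B n k + B n (k - 1) := by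
  rcases lt_trichotomy k 0 with h | h | h
  · rw [B_neg h, B_neg h, B_neg (by omega)]; simp
  · subst h; rw [B_zero, B_zero, B_neg (by omega)]; simp
  · obtain ⟨j, rfl⟩ : ∃ j : ℕ, k = (j : ℤ) + 1 := ⟨(k - 1).toNat, by omega⟩
    have e1 : ((j : ℤ) + 1).toNat = j + 1 := by omega
    have e2 : ((j : ℤ) + 1 - 1).toNat = j := by omega
    simp only [B, e1, e2, if_pos h.le, if_pos (show (0 : ℤ) ≤ j + 1 - 1 by omega)]
    rw [Ring.choose_succ_succ, add_comm]

lemma B_mul (n k : ℤ) : k * B n k = (n - k + 1) * B n (k - 1) := by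
  rcases lt_trichotomy k 0 with h | h | h
  · rw [B_neg h, B_neg (by omega)]; simp
  · subst h; rw [B_neg (k := 0 - 1) (by omega)]; simp
  · obtain ⟨j, rfl⟩ : ∃ j : ℕ, k = (j : ℤ) + 1 := ⟨(k - 1).toNat, by omega⟩
    have e1 : ((j : ℤ) + 1).toNat = j + 1 := by omega
    have e2 : ((j : ℤ) + 1 - 1).toNat = j := by omega
    simp only [B, e1, e2, if_pos h.le, if_pos (show (0 : ℤ) ≤ j + 1 - 1 by omega)]
    have := Ring.choose_smul_choose n (show j ≤ j + 1 by omega)
    simp only [Nat.choose_succ_self_right, Nat.add_sub_cancel_left, Ring.choose_one_right,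
      nsmul_eq_mul, Nat.cast_add, Nat.cast_one] at this
    rw [this]; ring

/-- Lattice points of the triangle of side `N`. -/
noncomputable def tri (N : ℤ) : Finset (Fin 3 → ℤ) :=
  (Fintype.piFinset fun _ => Finset.Icc 0 N).filter fun s => s 0 + s 1 + s 2 = N

lemma mem_tri {N : ℤ} {s : Fin 3 → ℤ} :
    s ∈ tri N ↔ 0 ≤ s 0 ∧ 0 ≤ s 1 ∧ 0 ≤ s 2 ∧ s 0 + s 1 + s 2 = N := by
  simp only [tri, mem_filter, Fintype.mem_piFinset, mem_Icc, Fin.forall_fin_succ,
    IsEmpty.forall_iff, and_true]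
  simp only [Fin.succ_zero_eq_one, Fin.succ_one_eq_two]
  omega

lemma sum_tri_shift (N : ℤ) (v : Fin 3 → ℤ) (hv : 0 ≤ v 0 ∧ 0 ≤ v 1 ∧ 0 ≤ v 2)
    (f : (Fin 3 → ℤ) → ℤ) (hf : ∀ s, (s 0 < v 0 ∨ s 1 < v 1 ∨ s 2 < v 2) → f s = 0) :
    ∑ s ∈ tri N, f s = ∑ s ∈ tri (N - (v 0 + v 1 + v 2)), f (s + v) := by
  symm
  refine Finset.sum_bij_ne_zero (fun s _ _ => s + v) ?_ ?_ ?_ ?_
  · intro s hs _
    rw [mem_tri] at hs ⊢
    simp only [Pi.add_apply]; omega
  · intro a _ _ b _ _ h
    exact add_right_cancel h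
  · intro s hs h
    refine ⟨s - v, ?_, by simpa using h, by simp⟩
    have := mt (hf s) h
    rw [mem_tri] at hs ⊢
    simp only [Pi.sub_apply]; omega
  · intro s _ _; rfl

/-- The basic triple binomial sum. -/
noncomputable def S (N p q r : ℤ) : ℤ :=
  ∑ s ∈ tri N, B (s 1 + 2 * s 2 + p) (s 2) * B (s 2 + 2 * s 0 + q) (s 0) *
    B (s 0 + 2 * s 1 + r) (s 1)

lemma S_shift (N p q r i j k : ℤ) (hi : 0 ≤ i) (hj : 0 ≤ j) (hk : 0 ≤ k) :
    ∑ s ∈ tri N, B (s 1 + 2 * s 2 + p) (s 2 - i) * B (s 2 + 2 * s 0 + q) (s 0 - j) *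
      B (s 0 + 2 * s 1 + r) (s 1 - k) =
    S (N - (i + j + k)) (p + k + 2 * i) (q + i + 2 * j) (r + j + 2 * k) := by
  rw [sum_tri_shift N ![j, k, i] (by simp [hi, hj, hk])]
  · simp only [S, Pi.add_apply, Matrix.cons_val_zero, Matrix.cons_val_one, Matrix.cons_val]
    rw [show j + k + i = i + j + k by ring]
    refine Finset.sum_congr rfl fun s _ => ?_
    congr 1
    · congr 1 <;> congr 1 <;> ring
    · congr 1 <;> ring
  · intro s hs
    simp only [Matrix.cons_val_zero, Matrix.cons_val_one, Matrix.cons_val] at hs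
    rcases hs with h | h | h
    · rw [B_neg (k := s 0 - j) (by omega)]; simp
    · rw [B_neg (k := s 1 - k) (by omega)]; simp
    · rw [B_neg (k := s 2 - i) (by omega)]; simp

lemma S_p (N p q r : ℤ) : S N (p + 1) q r = S N p q r + S (N - 1) (p + 2) (q + 1) r := by
  have := S_shift N p q r 1 0 0 (by omega) le_rfl le_rfl
  simp only [sub_zero, add_zero, mul_one, mul_zero] at this
  rw [← this, S, S, ← Finset.sum_add_distrib]
  refine Finset.sum_congr rfl fun s _ => ?_
  rw [← add_assoc, B_pascal]; ring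

lemma S_q (N p q r : ℤ) : S N p (q + 1) r = S N p q r + S (N - 1) p (q + 2) (r + 1) := by
  have := S_shift N p q r 0 1 0 le_rfl (by omega) le_rfl
  simp only [sub_zero, add_zero, mul_one, mul_zero, zero_add] at this
  rw [← this, S, S, ← Finset.sum_add_distrib]
  refine Finset.sum_congr rfl fun s _ => ?_
  rw [← add_assoc, B_pascal]; ring

lemma S_r (N p q r : ℤ) : S N p q (r + 1) = S N p q r + S (N - 1) (p + 1) q (r + 2) := by
  have := S_shift N p q r 0 0 1 le_rfl le_rfl (by omega)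
  simp only [sub_zero, add_zero, mul_one, mul_zero, zero_add] at this
  rw [← this, S, S, ← Finset.sum_add_distrib]
  refine Finset.sum_congr rfl fun s _ => ?_
  rw [← add_assoc, B_pascal]; ring

lemma S_neg {N : ℤ} (h : N < 0) (p q r : ℤ) : S N p q r = 0 := by
  refine Finset.sum_eq_zero fun s hs => ?_
  rw [mem_tri] at hs; omega

lemma S_sum_step (N : ℤ) (ih : ∀ p q r : ℤ, S (N - 1) p q r = S (N - 1) (p + q + r) 0 0) :
    ∀ p q r : ℤ, S N p q r = S N (p + q + r) 0 0 := by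
  have h1 : ∀ p q r, S N p (q + 1) r = S N (p + 1) q r := by
    intro p q r
    rw [S_p, S_q, ih, ih (p + 2)]; congr 2; ring
  have h2 : ∀ p q r, S N p q (r + 1) = S N (p + 1) q r := by
    intro p q r
    rw [S_p, S_r, ih, ih (p + 2)]; congr 2; ring
  have h3 : ∀ q p r, S N p q r = S N (p + q) 0 r := by
    intro q
    induction q using Int.induction_on with
    | zero => simp
    | succ q ihq => intro p r; rw [h1, ihq]; congr 1; ring
    | pred q ihq =>
      intro p r
      have := h1 (p - 1) (-q - 1) r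
      rw [sub_add_cancel, sub_add_cancel, ihq] at this
      rw [← this]; congr 1; ring
  have h4 : ∀ r p, S N p 0 r = S N (p + r) 0 0 := by
    intro r
    induction r using Int.induction_on with
    | zero => simp
    | succ q ihq => intro p; rw [h2, ihq]; congr 1; ring
    | pred q ihq =>
      intro p
      have := h2 (p - 1) 0 (-q - 1)
      rw [sub_add_cancel, sub_add_cancel, ihq] at this
      rw [← this]; congr 1; ring
  intro p q r
  rw [h3, h4]

lemma S_sum (N : ℤ) : ∀ p q r : ℤ, S N p q r = S N (p + q + r) 0 0 := by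
  have key : ∀ n : ℕ, ∀ p q r : ℤ, S ((n : ℤ) - 1) p q r = S ((n : ℤ) - 1) (p + q + r) 0 0 := by
    intro n
    induction n with
    | zero => intro p q r; rw [S_neg (by omega), S_neg (by omega)]
    | succ n ih =>
      rw [show ((n + 1 : ℕ) : ℤ) - 1 = n by push_cast; ring]
      exact S_sum_step _ ih
  rcases lt_or_ge N 0 with h | h
  · intro p q r; rw [S_neg h, S_neg h]
  · have := key (N + 1).toNat
    rwa [show (((N + 1).toNat : ℕ) : ℤ) - 1 = N by omega] at this

/-- One-parameter version of the sum. -/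
noncomputable def s1 (N σ : ℤ) : ℤ := S N σ 0 0

lemma s1_succ (N σ : ℤ) : s1 N (σ + 1) = s1 N σ + s1 (N - 1) (σ + 3) := by
  simp only [s1]; rw [S_p, S_sum (N - 1)]; congr 2; ring

lemma U_eq (N i j k : ℤ) (hi : 0 ≤ i) (hj : 0 ≤ j) (hk : 0 ≤ k) :
    ∑ s ∈ tri N, B (s 1 + 2 * s 2 - 1) (s 2 - i) * B (s 2 + 2 * s 0 - 1) (s 0 - j) *
      B (s 0 + 2 * s 1 - 1) (s 1 - k) = s1 (N - (i + j + k)) (3 * (i + j + k) - 3) := by
  have := S_shift N (-1) (-1) (-1) i j k hi hj hk
  simp only [← sub_eq_add_neg] at this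
  rw [this, S_sum, s1]; congr 1; ring

/-- Ballot number: paths whose last step is the first kind. -/
noncomputable def X (b c : ℤ) : ℤ := B (b + 2 * c - 1) c - B (b + 2 * c - 1) (c - 1)

/-- Ballot number: paths whose last step is the second kind. -/
noncomputable def Y (b c : ℤ) : ℤ := B (b + 2 * c - 1) (c - 1) - B (b + 2 * c - 1) (c - 2)

lemma X_mul (b c : ℤ) : c * X b c = b * B (b + 2 * c - 1) (c - 1) := by
  rw [X, mul_sub, B_mul]; ring

lemma X_zero {c : ℤ} (hc : 0 < c) : X 0 c = 0 := by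
  have := X_mul 0 c
  rw [zero_mul] at this
  exact (mul_eq_zero.mp this).resolve_left hc.ne'

lemma anchor {a b c : ℤ} (ha : 0 ≤ a) (hb : 0 ≤ b) (hc : 0 ≤ c) (h : 1 ≤ a + b + c) :
    X b c * X c a * X a b =
      B (b + 2 * c - 1) (c - 1) * B (c + 2 * a - 1) (a - 1) * B (a + 2 * b - 1) (b - 1) := by
  by_cases h0 : a = 0 ∨ b = 0 ∨ c = 0
  · have hR : B (b + 2 * c - 1) (c - 1) * B (c + 2 * a - 1) (a - 1) *
        B (a + 2 * b - 1) (b - 1) = 0 := by
      rcases h0 with h | h | h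
      · rw [B_neg (k := a - 1) (by omega)]; simp
      · rw [B_neg (k := b - 1) (by omega)]; simp
      · rw [B_neg (k := c - 1) (by omega)]; simp
    rw [hR]
    have : (b = 0 ∧ 0 < c) ∨ (c = 0 ∧ 0 < a) ∨ (a = 0 ∧ 0 < b) := by omega
    rcases this with ⟨h1, h2⟩ | ⟨h1, h2⟩ | ⟨h1, h2⟩ <;> rw [h1, X_zero h2] <;> simp
  · have hne : a * b * c ≠ 0 := by
      simp only [not_or] at h0
      exact mul_ne_zero (mul_ne_zero h0.1 h0.2.1) h0.2.2
    apply mul_left_cancel₀ hne
    have e1 := X_mul b c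
    have e2 := X_mul c a
    have e3 := X_mul a b
    calc a * b * c * (X b c * X c a * X a b) = (c * X b c) * (a * X c a) * (b * X a b) := by ring
      _ = _ := by rw [e1, e2, e3]; ring

lemma sum_XXX {N : ℤ} (hN : 1 ≤ N) :
    ∑ s ∈ tri N, X (s 1) (s 2) * X (s 2) (s 0) * X (s 0) (s 1) = s1 (N - 3) 6 := by
  have := U_eq N 1 1 1 (by omega) (by omega) (by omega)
  norm_num at this
  rw [← this]
  refine Finset.sum_congr rfl fun s hs => ?_
  rw [mem_tri] at hs
  exact anchor hs.1 hs.2.1 hs.2.2.1 (by omega)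

lemma sum_XXX' (N : ℤ) :
    ∑ s ∈ tri N, X (s 1) (s 2) * X (s 2) (s 0) * X (s 0) (s 1) =
      s1 N (-3) - 3 * s1 (N - 1) 0 + 3 * s1 (N - 2) 3 - s1 (N - 3) 6 := by
  have h0 := U_eq N 0 0 0 (by omega) (by omega) (by omega)
  have h1 := U_eq N 1 0 0 (by omega) (by omega) (by omega)
  have h2 := U_eq N 0 1 0 (by omega) (by omega) (by omega)
  have h3 := U_eq N 0 0 1 (by omega) (by omega) (by omega)
  have h4 := U_eq N 1 1 0 (by omega) (by omega) (by omega)
  have h5 := U_eq N 1 0 1 (by omega) (by omega) (by omega)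
  have h6 := U_eq N 0 1 1 (by omega) (by omega) (by omega)
  have h7 := U_eq N 1 1 1 (by omega) (by omega) (by omega)
  norm_num at h0 h1 h2 h3 h4 h5 h6 h7
  have : s1 N (-3) - 3 * s1 (N - 1) 0 + 3 * s1 (N - 2) 3 - s1 (N - 3) 6 =
      s1 N (-3) - s1 (N - 1) 0 - s1 (N - 1) 0 - s1 (N - 1) 0 + s1 (N - 2) 3 + s1 (N - 2) 3 +
        s1 (N - 2) 3 - s1 (N - 3) 6 := by ring
  rw [this]
  nth_rewrite 1 [← h0, ← h1, ← h2, ← h3, ← h4, ← h5, ← h6, ← h7]
  simp only [← Finset.sum_add_distrib, ← Finset.sum_sub_distrib]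
  refine Finset.sum_congr rfl fun s _ => ?_
  simp only [X]; ring

lemma sum_YYY (N : ℤ) :
    ∑ s ∈ tri N, Y (s 1) (s 2) * Y (s 2) (s 0) * Y (s 0) (s 1) =
      s1 (N - 3) 6 - 3 * s1 (N - 4) 9 + 3 * s1 (N - 5) 12 - s1 (N - 6) 15 := by
  have h0 := U_eq N 1 1 1 (by omega) (by omega) (by omega)
  have h1 := U_eq N 2 1 1 (by omega) (by omega) (by omega)
  have h2 := U_eq N 1 2 1 (by omega) (by omega) (by omega)
  have h3 := U_eq N 1 1 2 (by omega) (by omega) (by omega)
  have h4 := U_eq N 2 2 1 (by omega) (by omega) (by omega)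
  have h5 := U_eq N 2 1 2 (by omega) (by omega) (by omega)
  have h6 := U_eq N 1 2 2 (by omega) (by omega) (by omega)
  have h7 := U_eq N 2 2 2 (by omega) (by omega) (by omega)
  norm_num at h0 h1 h2 h3 h4 h5 h6 h7
  have : s1 (N - 3) 6 - 3 * s1 (N - 4) 9 + 3 * s1 (N - 5) 12 - s1 (N - 6) 15 =
      s1 (N - 3) 6 - s1 (N - 4) 9 - s1 (N - 4) 9 - s1 (N - 4) 9 + s1 (N - 5) 12 +
        s1 (N - 5) 12 + s1 (N - 5) 12 - s1 (N - 6) 15 := by ring
  rw [this]
  nth_rewrite 1 [← h0, ← h1, ← h2, ← h3, ← h4, ← h5, ← h6, ← h7]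
  simp only [← Finset.sum_add_distrib, ← Finset.sum_sub_distrib]
  refine Finset.sum_congr rfl fun s _ => ?_
  simp only [Y]; ring

/-- The combination of `s1` that has a closed form. -/
noncomputable def e1 (N σ : ℤ) : ℤ := s1 N σ - s1 (N - 1) (σ + 3) + s1 (N - 2) (σ + 6)

lemma e1_succ (N σ : ℤ) : e1 N (σ + 1) = e1 N σ + e1 (N - 1) (σ + 3) := by
  have a := s1_succ N σ
  have b := s1_succ (N - 1) (σ + 3)
  have c := s1_succ (N - 2) (σ + 6)
  simp only [e1]
  rw [show σ + 1 + 3 = σ + 3 + 1 by ring, show σ + 1 + 6 = σ + 6 + 1 by ring, a, b, c,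
    show N - 1 - 1 = N - 2 by ring, show σ + 3 + 3 = σ + 6 by ring,
    show N - 1 - 2 = N - 2 - 1 by ring, show σ + 3 + 6 = σ + 6 + 3 by ring]
  ring

lemma tri_zero : tri 0 = {0} := by
  ext s
  rw [mem_tri, mem_singleton, funext_iff]
  simp only [Fin.forall_fin_succ, IsEmpty.forall_iff, and_true, Pi.zero_apply,
    Fin.succ_zero_eq_one, Fin.succ_one_eq_two]
  omega

lemma e1_eq (N : ℤ) : ∀ σ, e1 N σ = B (3 * N + σ + 2) N := by
  have key : ∀ n : ℕ, ∀ σ, e1 n σ = B (3 * n + σ + 2) n := by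
    intro n
    induction n with
    | zero =>
      intro σ
      simp only [e1, s1, Nat.cast_zero]
      rw [S_neg (N := 0 - 1) (by omega), S_neg (N := 0 - 2) (by omega), S, tri_zero]
      simp [B_zero]
    | succ n ih =>
      set N : ℤ := ((n + 1 : ℕ) : ℤ) with hN
      have hn : (n : ℤ) = N - 1 := by rw [hN]; push_cast; ring
      have hN1 : 1 ≤ N := by omega
      rw [hn] at ih
      have step : ∀ σ, e1 N (σ + 1) - B (3 * N + (σ + 1) + 2) N =
          e1 N σ - B (3 * N + σ + 2) N := by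
        intro σ
        rw [e1_succ, ih, show 3 * N + (σ + 1) + 2 = 3 * N + σ + 2 + 1 by ring, B_pascal,
          show 3 * (N - 1) + (σ + 3) + 2 = 3 * N + σ + 2 by ring]
        ring
      have base : e1 N (-3) - B (3 * N + (-3) + 2) N = 0 := by
        have h1 := sum_XXX hN1
        rw [sum_XXX'] at h1
        have h2 := ih 0
        have h3 := B_mul (3 * N - 1) N
        rw [show 3 * (N - 1) + 0 + 2 = 3 * N - 1 by ring] at h2
        rw [show 3 * N + (-3) + 2 = 3 * N - 1 by ring]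
        have h4 : B (3 * N - 1) N = 2 * B (3 * N - 1) (N - 1) := by
          apply mul_left_cancel₀ (show N ≠ 0 by omega)
          rw [h3]; ring
        simp only [e1] at h2 ⊢
        rw [show N - 1 - 1 = N - 2 by ring, show N - 1 - 2 = N - 3 by ring] at h2
        norm_num at h2 ⊢
        omega
      have all : ∀ t : ℤ, e1 N (t - 3) - B (3 * N + (t - 3) + 2) N = 0 := by
        intro t
        induction t using Int.induction_on with
        | zero => simpa using base
        | succ t iht => rw [show (t : ℤ) + 1 - 3 = t - 3 + 1 by ring, step, iht]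
        | pred t iht =>
          rw [← step, show -(t : ℤ) - 1 - 3 + 1 = -t - 3 by ring, iht]
      intro σ
      have := all (σ + 3)
      rw [show σ + 3 - 3 = σ by ring] at this
      omega
  rcases lt_or_ge N 0 with h | h
  · intro σ
    simp only [e1, s1]
    rw [S_neg h, S_neg (by omega), S_neg (by omega), B_neg h]; simp
  · have := key N.toNat
    rwa [show ((N.toNat : ℕ) : ℤ) = N by omega] at this

theorem total {N : ℤ} (hN : 1 ≤ N) :
    ∑ s ∈ tri N, (X (s 1) (s 2) * X (s 2) (s 0) * X (s 0) (s 1) +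
      Y (s 1) (s 2) * Y (s 2) (s 0) * Y (s 0) (s 1)) =
      2 * B (3 * N - 1) (N - 3) - B (3 * N - 1) (N - 4) := by
  rw [Finset.sum_add_distrib, sum_XXX hN, sum_YYY]
  have h1 := e1_eq (N - 3) 6
  have h2 := e1_eq (N - 4) 9
  rw [show 3 * (N - 3) + 6 + 2 = 3 * N - 1 by ring] at h1
  rw [show 3 * (N - 4) + 9 + 2 = 3 * N - 1 by ring] at h2
  rw [← h1, ← h2]
  simp only [e1]
  rw [show N - 3 - 1 = N - 4 by ring, show N - 3 - 2 = N - 5 by ring,
    show N - 4 - 1 = N - 5 by ring, show N - 4 - 2 = N - 6 by ring]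
  norm_num
  ring

end Pool.Agent.Lib.MP_7e9d3d_co
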